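import Pool.Agent.V11223.UB.Local

/-!
# The algorithm: optimal grouping at a vertex
-/

set_option linter.unusedSectionVars false

namespace Pool.Agent.V11223.UB

/-- four numbers, one for each label -/
abbrev Q4 := ℕ × ℕ × ℕ × ℕ

/-- the entry of a label -/
def evL (t : Q4) (a : Lb) : ℕ :=
  bif a.1 then (bif a.2 then t.2.2.2 else t.2.2.1) else (bif a.2 then t.2.1 else t.1)

/-- the numbers of occurrences of the labels in a list -/
def cv (l : List Lb) : Q4 :=
  (l.count (false, false), l.count (false, true), l.count (true, false), l.count (true, true))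

/-- the four labels -/
def lbs : List Lb := [(false, false), (false, true), (true, false), (true, true)]

theorem mem_lbs (a : Lb) : a ∈ lbs := by
  rcases a with ⟨_ | _, _ | _⟩ <;> decide

theorem cv_append (l l' : List Lb) : cv (l ++ l') = cv l + cv l' := by
  simp [cv, List.count_append]

theorem cv_cons (a : Lb) (l : List Lb) : cv (a :: l) = cv [a] + cv l := by
  rw [← cv_append]; rfl

theorem cv_eq_iff (l l' : List Lb) : cv l = cv l' ↔ l.Perm l' := by
  rw [List.perm_iff_count]
  constructor
  · intro h a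
    simp only [cv, Prod.mk.injEq] at h
    obtain ⟨h1, h2, h3, h4⟩ := h
    rcases a with ⟨_ | _, _ | _⟩
    · exact h1
    · exact h2
    · exact h3
    · exact h4
  · intro h
    simp only [cv, h]

/-- the lists of at most three labels that form a group -/
def types : List (List Lb) :=
  ([[]] ++ lbs.map (fun a => [a]) ++ lbs.flatMap (fun a => lbs.map fun b => [a, b]) ++
    lbs.flatMap (fun a => lbs.flatMap fun b => lbs.map fun c => [a, b, c])).filter
      (fun g => decide (Ok g))

theorem mem_types {g : List Lb} (h : Ok g) : g ∈ types := by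
  unfold types
  rw [List.mem_filter]
  refine ⟨?_, by simpa using h⟩
  have hl := h.2.1
  simp only [List.mem_append, List.mem_map, List.mem_flatMap, List.mem_singleton]
  match g, hl with
  | [], _ => exact Or.inl (Or.inl (Or.inl rfl))
  | [a], _ => exact Or.inl (Or.inl (Or.inr ⟨a, mem_lbs a, rfl⟩))
  | [a, b], _ => exact Or.inl (Or.inr ⟨a, mem_lbs a, b, mem_lbs b, rfl⟩)
  | [a, b, c], _ => exact Or.inr ⟨a, mem_lbs a, b, mem_lbs b, c, mem_lbs c, rfl⟩

theorem ok_of_mem_types {g : List Lb} (h : g ∈ types) : Ok g := by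
  unfold types at h
  rw [List.mem_filter] at h
  simpa using h.2

/-- all states with entries at most `n` and cost at most `B` -/
def box (n B : ℕ) : List (Q4 × ℕ) :=
  (List.range (n + 1)).flatMap fun a => (List.range (n + 1)).flatMap fun b =>
    (List.range (n + 1)).flatMap fun c => (List.range (n + 1)).flatMap fun d =>
      (List.range (B + 1)).map fun e => ((a, b, c, d), e)

theorem mem_box {n B : ℕ} {x : Q4 × ℕ} :
    x ∈ box n B ↔ x.1.1 ≤ n ∧ x.1.2.1 ≤ n ∧ x.1.2.2.1 ≤ n ∧ x.1.2.2.2 ≤ n ∧ x.2 ≤ B := by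
  obtain ⟨⟨a, b, c, d⟩, e⟩ := x
  unfold box
  simp only [List.mem_flatMap, List.mem_range, List.mem_map, Prod.mk.injEq]
  constructor
  · rintro ⟨a', ha, b', hb, c', hc, d', hd, e', he, ⟨rfl, rfl, rfl, rfl⟩, rfl⟩
    omega
  · rintro ⟨ha, hb, hc, hd, he⟩
    exact ⟨a, by omega, b, by omega, c, by omega, d, by omega, e, by omega, ⟨rfl, rfl, rfl, rfl⟩, rfl⟩

/-- add a child with table `t` -/
def phA (bx : List (Q4 × ℕ)) (S : List (Q4 × ℕ)) (t : Q4) : List (Q4 × ℕ) :=
  bx.filter fun x => S.any fun y => lbs.any fun a => decide (x = (y.1 + cv [a], y.2 + evL t a))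

/-- remove at most one group -/
def phB (bx : List (Q4 × ℕ)) (S : List (Q4 × ℕ)) : List (Q4 × ℕ) :=
  bx.filter fun x => S.any fun y =>
    decide (x = y) || (types.map cv).any fun q => decide (y.1 = x.1 + q ∧ x.2 = y.2 + 1)

/-- the least cost of a grouping -/
def comb (n B k : ℕ) (tl : List Q4) (ini : List Lb) : ℕ :=
  ((((List.range k).foldl (fun S _ => phB (box n B) S)
    (tl.foldl (phA (box n B)) [(cv ini, 0)])).filter fun x => decide (x.1 = (0, 0, 0, 0))).foldl
      (fun m x => min m x.2) B)

theorem mem_phA {bx S : List (Q4 × ℕ)} {t : Q4} {x : Q4 × ℕ} :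
    x ∈ phA bx S t ↔ x ∈ bx ∧ ∃ y ∈ S, ∃ a : Lb, x = (y.1 + cv [a], y.2 + evL t a) := by
  unfold phA
  simp only [List.mem_filter, List.any_eq_true, decide_eq_true_eq]
  refine and_congr_right fun _ => exists_congr fun y => and_congr_right fun _ => ?_
  exact ⟨fun ⟨a, _, h⟩ => ⟨a, h⟩, fun ⟨a, h⟩ => ⟨a, mem_lbs a, h⟩⟩

theorem mem_phB {bx S : List (Q4 × ℕ)} {x : Q4 × ℕ} :
    x ∈ phB bx S ↔ x ∈ bx ∧ ∃ y ∈ S, x = y ∨ ∃ g, Ok g ∧ y.1 = x.1 + cv g ∧ x.2 = y.2 + 1 := by
  unfold phB
  simp only [List.mem_filter, List.any_eq_true, Bool.or_eq_true, decide_eq_true_eq, List.mem_map]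
  refine and_congr_right fun _ => exists_congr fun y => and_congr_right fun _ => ?_
  refine or_congr_right ?_
  constructor
  · rintro ⟨q, ⟨g, hg, rfl⟩, h⟩
    exact ⟨g, ok_of_mem_types hg, h⟩
  · rintro ⟨g, hg, h⟩
    exact ⟨cv g, ⟨g, mem_types hg, rfl⟩, h⟩

section
variable {ι : Type} [DecidableEq ι]

theorem phA_sound (bx : List (Q4 × ℕ)) (T : ι → Q4) (ini : List Lb) : ∀ (ws : List ι),
    ws.Nodup → ∀ x ∈ (ws.map T).foldl (phA bx) [(cv ini, 0)],
    ∃ lab : ι → Lb, x.1 = cv (ini ++ ws.map lab) ∧ x.2 = (ws.map fun w => evL (T w) (lab w)).sum := by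
  intro ws
  induction ws using List.reverseRecOn with
  | nil =>
    intro _ x hx
    simp only [List.map_nil, List.foldl_nil, List.mem_singleton] at hx
    subst hx
    exact ⟨fun _ => (false, false), by simp, by simp⟩
  | append_singleton ws w ih =>
    intro hnd x hx
    rw [List.map_append, List.foldl_append, List.map_singleton, List.foldl_cons,
      List.foldl_nil, mem_phA] at hx
    obtain ⟨_, y, hy, a, hxy⟩ := hx
    rw [List.nodup_append] at hnd
    obtain ⟨hn1, -, hn2⟩ := hnd
    obtain ⟨lab, h1, h2⟩ := ih hn1 y hy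
    have hw : w ∉ ws := fun h => hn2 w h w (by simp) rfl
    refine ⟨Function.update lab w a, ?_, ?_⟩
    · rw [hxy]
      simp only
      rw [h1, List.map_append, ← List.append_assoc, cv_append _ (List.map _ [w])]
      have e1 : ws.map (Function.update lab w a) = ws.map lab := by
        refine List.map_congr_left fun v hv => ?_
        rw [Function.update_of_ne]
        rintro rfl
        exact hw hv
      rw [e1, List.map_singleton, Function.update_self]
    · rw [hxy]
      simp only
      rw [h2, List.map_append, List.sum_append, List.map_singleton, List.sum_singleton,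
        Function.update_self]
      congr 2
      refine List.map_congr_left fun v hv => ?_
      rw [Function.update_of_ne]
      rintro rfl
      exact hw hv

theorem phA_complete (n B : ℕ) (T : ι → Q4) (ini : List Lb) (lab : ι → Lb) : ∀ (ws : List ι),
    ini.length + ws.length ≤ n → (ws.map fun w => evL (T w) (lab w)).sum ≤ B →
    (cv (ini ++ ws.map lab), (ws.map fun w => evL (T w) (lab w)).sum) ∈
      (ws.map T).foldl (phA (box n B)) [(cv ini, 0)] := by
  intro ws
  induction ws using List.reverseRecOn with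
  | nil =>
    intro _ _
    simp
  | append_singleton ws w ih =>
    intro hn hB
    rw [List.length_append, List.length_singleton] at hn
    rw [List.map_append (f := fun w => evL (T w) (lab w)), List.sum_append, List.map_singleton,
      List.sum_singleton] at hB ⊢
    have h1 := ih (by omega) (by omega)
    rw [List.map_append (f := T), List.foldl_append, List.map_singleton, List.foldl_cons,
      List.foldl_nil, mem_phA]
    have hlen : ∀ a : Lb, List.count a (ini ++ (ws ++ [w]).map lab) ≤ n := by
      intro a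
      refine List.count_le_length.trans ?_
      rw [List.length_append, List.length_map, List.length_append, List.length_singleton]
      omega
    refine ⟨mem_box.2 ⟨hlen _, hlen _, hlen _, hlen _, hB⟩, _, h1, lab w, ?_⟩
    rw [List.map_append, ← List.append_assoc, cv_append _ (List.map _ [w])]
    rfl

end

theorem phB_sound (bx : List (Q4 × ℕ)) (S : List (Q4 × ℕ)) : ∀ (k : ℕ),
    ∀ x ∈ (List.range k).foldl (fun S _ => phB bx S) S,
    ∃ y ∈ S, ∃ gs : List (List Lb), (∀ g ∈ gs, Ok g) ∧ gs.length ≤ k ∧
      y.1 = x.1 + cv gs.flatten ∧ x.2 = y.2 + gs.length := by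
  intro k
  induction k with
  | zero =>
    intro x hx
    refine ⟨x, by simpa using hx, [], by simp, by simp, ?_, by simp⟩
    show x.1 = x.1 + 0
    simp
  | succ k ih =>
    intro x hx
    rw [List.range_succ, List.foldl_append, List.foldl_cons, List.foldl_nil, mem_phB] at hx
    obtain ⟨_, z, hz, h⟩ := hx
    obtain ⟨y, hy, gs, h1, h2, h3, h4⟩ := ih z hz
    rcases h with rfl | ⟨g, hg, h5, h6⟩
    · exact ⟨y, hy, gs, h1, by omega, h3, h4⟩
    · refine ⟨y, hy, g :: gs, ?_, ?_, ?_, ?_⟩
      · intro g' hg'
        rcases List.mem_cons.1 hg' with rfl | h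
        · exact hg
        · exact h1 g' h
      · rw [List.length_cons]; omega
      · rw [h3, h5, List.flatten_cons, cv_append, add_assoc]
      · rw [h6, h4, List.length_cons]; omega

theorem phB_mono (n B : ℕ) (S : List (Q4 × ℕ)) {x : Q4 × ℕ} (hx : x ∈ S) (hb : x ∈ box n B) :
    ∀ k, x ∈ (List.range k).foldl (fun S _ => phB (box n B) S) S := by
  intro k
  induction k with
  | zero => simpa using hx
  | succ k ih =>
    rw [List.range_succ, List.foldl_append, List.foldl_cons, List.foldl_nil, mem_phB]
    exact ⟨hb, x, ih, Or.inl rfl⟩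

theorem phB_complete (n B : ℕ) (S : List (Q4 × ℕ)) {y : Q4 × ℕ} (hy : y ∈ S) (hb : y ∈ box n B) :
    ∀ (k : ℕ) (gs : List (List Lb)) (q : Q4), (∀ g ∈ gs, Ok g) → gs.length ≤ k →
      y.1 = q + cv gs.flatten → y.2 + gs.length ≤ B →
      (q, y.2 + gs.length) ∈ (List.range k).foldl (fun S _ => phB (box n B) S) S := by
  intro k
  induction k with
  | zero =>
    intro gs q _ h2 h3 _
    have : gs = [] := List.length_eq_zero_iff.1 (by omega)
    subst this
    have h4 : y = (q, y.2) := by
      apply Prod.ext
      · rw [h3]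
        show q + 0 = q
        simp
      · rfl
    simpa [← h4] using hy
  | succ k ih =>
    intro gs q h1 h2 h3 h4
    rw [mem_box] at hb
    rcases gs with _ | ⟨g, gs⟩
    · have h5 : y = (q, y.2) := by
        apply Prod.ext
        · rw [h3]
          show q + 0 = q
          simp
        · rfl
      have := phB_mono n B S hy (mem_box.2 hb) (k + 1)
      rw [h5] at this
      simpa using this
    · rw [List.length_cons] at h2 h4
      rw [List.flatten_cons, cv_append, ← add_assoc] at h3
      have h5 := ih gs (q + cv g) (fun g' hg' => h1 g' (List.mem_cons_of_mem _ hg')) (by omega)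
        h3 (by omega)
      rw [List.range_succ, List.foldl_append, List.foldl_cons, List.foldl_nil, mem_phB]
      refine ⟨?_, _, h5, Or.inr ⟨g, h1 g (by simp), rfl, ?_⟩⟩
      · rw [mem_box]
        obtain ⟨b1, b2, b3, b4, b5⟩ := hb
        have e1 : y.1.1 = q.1 + (cv g).1 + (cv gs.flatten).1 := by rw [h3]; rfl
        have e2 : y.1.2.1 = q.2.1 + (cv g).2.1 + (cv gs.flatten).2.1 := by rw [h3]; rfl
        have e3 : y.1.2.2.1 = q.2.2.1 + (cv g).2.2.1 + (cv gs.flatten).2.2.1 := by rw [h3]; rfl
        have e4 : y.1.2.2.2 = q.2.2.2 + (cv g).2.2.2 + (cv gs.flatten).2.2.2 := by rw [h3]; rfl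
        simp only [List.length_cons]
        omega
      · simp only [List.length_cons]
        omega

theorem foldl_min {α : Type} (f : α → ℕ) : ∀ (l : List α) (B : ℕ),
    l.foldl (fun m x => min m (f x)) B ≤ B ∧ (∀ x ∈ l, l.foldl (fun m x => min m (f x)) B ≤ f x) ∧
    (l.foldl (fun m x => min m (f x)) B = B ∨ ∃ x ∈ l, l.foldl (fun m x => min m (f x)) B = f x) := by
  intro l
  induction l with
  | nil => intro B; simp
  | cons a l ih =>
    intro B
    obtain ⟨h1, h2, h3⟩ := ih (min B (f a))
    rw [List.foldl_cons]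
    refine ⟨h1.trans (min_le_left _ _), ?_, ?_⟩
    · intro x hx
      rcases List.mem_cons.1 hx with rfl | hx
      · exact h1.trans (min_le_right _ _)
      · exact h2 x hx
    · rcases h3 with h3 | ⟨x, hx, h3⟩
      · rcases min_choice B (f a) with h4 | h4
        · exact Or.inl (h3.trans h4)
        · exact Or.inr ⟨a, by simp, h3.trans h4⟩
      · exact Or.inr ⟨x, List.mem_cons_of_mem _ hx, h3⟩

section
variable {ι : Type} [DecidableEq ι]

theorem comb_le (n B k : ℕ) (tl : List Q4) (ini : List Lb) : comb n B k tl ini ≤ B :=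
  (foldl_min _ _ _).1

theorem comb_le_of_LC {n B k : ℕ} {ws : List ι} {T : ι → Q4} {ini : List Lb} {c : ℕ}
    (hn : ini.length + ws.length ≤ n) (h : LC k ws (fun w => evL (T w)) ini c) :
    comb n B k (ws.map T) ini ≤ c := by
  by_cases hc : c ≤ B
  · obtain ⟨lab, gs, h1, h2, h3, h4⟩ := h
    have h4 : c = gs.length + (ws.map fun w => evL (T w) (lab w)).sum := h4
    refine (foldl_min _ _ _).2.1 ((0, 0, 0, 0), c) ?_
    rw [List.mem_filter]
    refine ⟨?_, by simp⟩
    have h5 := phA_complete n B T ini lab ws hn (by omega)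
    have h6 : ((cv (ini ++ ws.map lab), (ws.map fun w => evL (T w) (lab w)).sum) : Q4 × ℕ) ∈
        box n B := by
      rw [mem_box]
      have hlen : ∀ a : Lb, List.count a (ini ++ ws.map lab) ≤ n := by
        intro a
        refine List.count_le_length.trans ?_
        rw [List.length_append, List.length_map]
        exact hn
      exact ⟨hlen _, hlen _, hlen _, hlen _, by simp only; omega⟩
    have h7 := phB_complete n B _ h5 h6 k gs (0, 0, 0, 0) h1 h2 (by
      simp only
      rw [← (cv_eq_iff _ _).2 h3]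
      show cv gs.flatten = 0 + cv gs.flatten
      simp) (by simp only; omega)
    simp only at h7
    have h8 : c = (ws.map fun w => evL (T w) (lab w)).sum + gs.length := by rw [h4]; ring
    rw [h8]
    exact h7
  · exact (comb_le n B k _ ini).trans (by omega)

theorem LC_of_comb_lt {n B k : ℕ} {ws : List ι} (hws : ws.Nodup) {T : ι → Q4} {ini : List Lb}
    (h : comb n B k (ws.map T) ini < B) :
    LC k ws (fun w => evL (T w)) ini (comb n B k (ws.map T) ini) := by
  rcases (foldl_min (fun x : Q4 × ℕ => x.2) ((((List.range k).foldl (fun S _ => phB (box n B) S)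
    ((ws.map T).foldl (phA (box n B)) [(cv ini, 0)])).filter
      fun x => decide (x.1 = (0, 0, 0, 0)))) B).2.2 with h1 | ⟨x, hx, h1⟩
  · exact absurd h1 (ne_of_lt h)
  · have h1' : comb n B k (ws.map T) ini = x.2 := h1
    rw [List.mem_filter] at hx
    obtain ⟨hx, hx0⟩ := hx
    have hx0' : x.1 = (0, 0, 0, 0) := by simpa using hx0
    obtain ⟨y, hy, gs, h2, h3, h4, h5⟩ := phB_sound _ _ k x hx
    obtain ⟨lab, h6, h7⟩ := phA_sound _ T ini ws hws y hy
    refine ⟨lab, gs, h2, h3, ?_, ?_⟩
    · rw [← cv_eq_iff, ← h6, h4, hx0']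
      show cv gs.flatten = 0 + cv gs.flatten
      simp
    · rw [h1', h5, h7]
      ring

end

end Pool.Agent.V11223.UB
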