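import Mathlib

/-!
# Decompositions of trees into unit bar visibility trees: definitions
-/

namespace Pool.Agent.V11223.UB

/-- A graph is a UBVT if it is a tree of maximum degree at most `3` that is a subdivision of a
caterpillar, that is, all its vertices of degree `3` lie on one path. -/
def IsUBVT {W : Type} (G : SimpleGraph W) : Prop :=
  G.IsTree ∧ (∀ v, (G.neighborSet v).ncard ≤ 3) ∧
    ∃ (a b : W) (p : G.Walk a b), p.IsPath ∧ ∀ v, (G.neighborSet v).ncard = 3 → v ∈ p.support

/-- `P` is a decomposition of `G` into UBVTs in which every vertex lies in at most `k` pieces. -/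
structure IsDecomp {V : Type} (G : SimpleGraph V) (k : ℕ) (P : Finset G.Subgraph) : Prop where
  /-- every piece is a UBVT and has an edge -/
  piece : ∀ H ∈ P, IsUBVT H.coe ∧ H.edgeSet.Nonempty
  /-- every edge lies in exactly one piece -/
  cover : ∀ e ∈ G.edgeSet, ∃! H, H ∈ P ∧ e ∈ H.edgeSet
  /-- every vertex lies in at most `k` pieces -/
  load : ∀ v, {H | H ∈ P ∧ v ∈ H.verts}.ncard ≤ k

end Pool.Agent.V11223.UB
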