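import Pool.Agent.V11223.UB.Metric

/-!
# Local constraints at a vertex

The label of an edge seen from one of its ends is a pair of bits `(out, inn)`: `out` tells that the
piece containing the edge has a vertex of degree `3` on the far side, and `inn` that it has one on
the near side.
-/

namespace Pool.Agent.V11223.UB

/-- labels of edges seen from an end -/
abbrev Lb := Bool × Bool

/-- the label seen from the other end -/
def sw (a : Lb) : Lb := (a.2, a.1)

/-- compatibility of two different edges of one piece at a vertex -/
def Compat (a b : Lb) : Prop := (a.1 = true → b.2 = true) ∧ (b.1 = true → a.2 = true)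

instance : DecidableRel Compat := fun a b => by unfold Compat; infer_instance

/-- the labels of the edges of one piece at a vertex fit together -/
def Ok (g : List Lb) : Prop :=
  g ≠ [] ∧ g.length ≤ 3 ∧ g.Pairwise Compat ∧
    (g.length = 3 → (∀ a ∈ g, a.2 = true) ∧ ∃ a ∈ g, a.1 = false)

instance : DecidablePred Ok := fun g => by unfold Ok; infer_instance

theorem Ok.perm {g h : List Lb} (hg : Ok g) (hp : g.Perm h) : Ok h := by
  obtain ⟨h1, h2, h3, h4⟩ := hg
  refine ⟨?_, ?_, ?_, ?_⟩
  · rintro rfl
    exact h1 hp.eq_nil
  · rwa [← hp.length_eq]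
  · refine (hp.pairwise_iff ?_).1 h3
    intro a b hab
    exact ⟨hab.2, hab.1⟩
  · intro hl
    rw [← hp.length_eq] at hl
    obtain ⟨h5, a, ha, h6⟩ := h4 hl
    exact ⟨fun b hb => h5 b (hp.mem_iff.2 hb), a, hp.mem_iff.1 ha, h6⟩

/-- `c` is the cost of some way to label the edges to the children `ws` and to group all the edges
at a vertex into at most `k` groups, where `ini` are the labels of the other edges and `T` gives
the costs of the branches. -/
def LC {ι : Type} (k : ℕ) (ws : List ι) (T : ι → Lb → ℕ) (ini : List Lb) (c : ℕ) : Prop :=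
  ∃ (lab : ι → Lb) (gs : List (List Lb)), (∀ g ∈ gs, Ok g) ∧ gs.length ≤ k ∧
    gs.flatten.Perm (ini ++ ws.map lab) ∧ c = gs.length + (ws.map (fun w => T w (lab w))).sum

end Pool.Agent.V11223.UB
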