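import Pool.Agent.V11223.UB.Root

/-!
# The lower bound: from a decomposition to local groupings
-/

set_option linter.unusedSectionVars false

namespace Pool.Agent.V11223.UB

open SimpleGraph

variable {V : Type} [Fintype V] [DecidableEq V] {G : SimpleGraph V}

open Classical in
/-- does the piece of the edge `v w` have a vertex of degree `3` beyond `w`? -/
noncomputable def heavy (P : Finset G.Subgraph) (v w : V) : Bool :=
  decide (∃ H ∈ P, H.Adj v w ∧ ∃ z ∈ S3 H, G.dist z w < G.dist z v)

/-- the label of the edge `v w` seen from `v` -/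
noncomputable def labP (P : Finset G.Subgraph) (v w : V) : Lb := (heavy P v w, heavy P w v)

theorem heavy_iff {k : ℕ} {P : Finset G.Subgraph} (hP : IsDecomp G k P) {H : G.Subgraph}
    (hH : H ∈ P) {v w : V} (h : H.Adj v w) :
    heavy P v w = true ↔ ∃ z ∈ S3 H, G.dist z w < G.dist z v := by
  classical
  unfold heavy
  rw [decide_eq_true_iff]
  constructor
  · rintro ⟨H', hH', hadj, hz⟩
    have h1 := hP.cover s(v, w) (by rw [mem_edgeSet]; exact H.adj_sub h)
    have h2 : H = H' := h1.unique ⟨hH, h⟩ ⟨hH', hadj⟩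
    rw [h2]
    exact hz
  · intro hz
    exact ⟨H, hH, h, hz⟩

theorem exists_adj {H : G.Subgraph} (hc : H.coe.Connected) (he : H.edgeSet.Nonempty) {v : V}
    (hv : v ∈ H.verts) : ∃ w, H.Adj v w := by
  obtain ⟨e, he⟩ := he
  induction e using Sym2.ind with
  | _ x y =>
  have hxy : H.Adj x y := he
  have hne : x ≠ y := hxy.ne
  -- some end differs from `v`
  obtain ⟨t, ht, htv⟩ : ∃ t, ∃ _ : t ∈ H.verts, t ≠ v := by
    by_cases h : x = v
    · exact ⟨y, H.edge_vert hxy.symm, fun h' => hne (h.trans h'.symm)⟩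
    · exact ⟨x, H.edge_vert hxy, h⟩
  obtain ⟨p⟩ := hc ⟨v, hv⟩ ⟨t, ht⟩
  cases p with
  | nil => exact absurd rfl htv
  | @cons _ w _ hadj q => exact ⟨w, by simpa using hadj⟩

open Classical in
/-- the labels of the edges of a piece at a vertex -/
noncomputable def grp (R : Rt G) (P : Finset G.Subgraph) (v : V) (H : G.Subgraph) : List Lb :=
  ((R.nbl v).filter (fun w => decide (H.Adj v w))).map (labP P v)

theorem ok_grp (hG : G.IsTree) (R : Rt G) {k : ℕ} {P : Finset G.Subgraph} (hP : IsDecomp G k P)
    {v : V} {H : G.Subgraph} (hH : H ∈ P) (hv : v ∈ H.verts) : Ok (grp R P v H) := by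
  classical
  obtain ⟨hU, hne⟩ := hP.piece H hH
  have hlen : (grp R P v H).length = (H.neighborSet v).ncard := by
    unfold grp
    rw [List.length_map, ← List.toFinset_card_of_nodup ((R.nodup_nbl v).filter _),
      ← Set.ncard_coe_finset]
    congr 1
    ext w
    simp only [List.coe_toFinset, List.mem_filter, decide_eq_true_iff, Set.mem_ofPred_eq,
      Subgraph.mem_neighborSet, R.mem_nbl hG]
    exact ⟨fun h => h.2, fun h => ⟨H.adj_sub h, h⟩⟩
  have hdeg : (H.neighborSet v).ncard ≤ 3 := by
    have := hU.2.1 ⟨v, hv⟩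
    rwa [ncard_coe] at this
  refine ⟨?_, ?_, ?_, ?_⟩
  · obtain ⟨w, hw⟩ := exists_adj hU.1.connected hne hv
    apply List.ne_nil_of_length_pos
    rw [hlen, Set.ncard_pos (Set.toFinite _)]
    exact ⟨w, hw⟩
  · rw [hlen]
    exact hdeg
  · unfold grp
    rw [List.pairwise_map]
    have hnd := (R.nodup_nbl v).filter (fun w => decide (H.Adj v w))
    refine List.Pairwise.imp_of_mem ?_ hnd
    intro w w' hw hw' hww
    have h1 : H.Adj v w := by simpa using (List.mem_filter.1 hw).2
    have h2 : H.Adj v w' := by simpa using (List.mem_filter.1 hw').2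
    have key : ∀ {w w' : V}, w ≠ w' → H.Adj v w → H.Adj v w' → heavy P v w = true →
        heavy P w' v = true := by
      intro w w' hww h1 h2 hh
      rw [heavy_iff hP hH h1] at hh
      obtain ⟨z, hz, hd⟩ := hh
      rw [heavy_iff hP hH h2.symm]
      refine ⟨z, hz, ?_⟩
      rcases step_cases hG z (H.adj_sub h2) with h3 | h3
      · rcases step_cases hG z (H.adj_sub h1) with h4 | h4
        · exact absurd (closer_unique hG (H.adj_sub h1) (H.adj_sub h2) h4 h3) hww
        · omega
      · omega
    exact ⟨key hww h1 h2, key (Ne.symm hww) h2 h1⟩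
  · intro hl
    rw [hlen] at hl
    have hv3 : v ∈ S3 H := hl
    refine ⟨?_, ?_⟩
    · intro a ha
      unfold grp at ha
      obtain ⟨w, hw, rfl⟩ := List.mem_map.1 ha
      have h1 : H.Adj v w := by simpa using (List.mem_filter.1 hw).2
      show heavy P w v = true
      rw [heavy_iff hP hH h1.symm]
      refine ⟨v, hv3, ?_⟩
      rw [G.dist_self]
      exact hG.connected.pos_dist_of_ne h1.ne
    · obtain ⟨w, hw, hl⟩ := light_of_ubvt hG hU hv3
      refine ⟨labP P v w, ?_, ?_⟩
      · unfold grp
        apply List.mem_map_of_mem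
        rw [List.mem_filter, R.mem_nbl hG]
        exact ⟨H.adj_sub hw, by simpa using hw⟩
      · show heavy P v w = false
        rw [Bool.eq_false_iff]
        intro hh
        rw [heavy_iff hP hH hw] at hh
        obtain ⟨z, hz, hd⟩ := hh
        have := hl z hz
        omega

/-- A list whose elements satisfy exactly one of the predicates is a permutation of the
concatenation of its parts. -/
theorem flatMap_filter_perm {α β : Type} [DecidableEq α] (l : List α) (Q : List β)
    (f : β → α → Bool) (hQ : Q.Nodup) (h : ∀ a ∈ l, ∃! b, b ∈ Q ∧ f b a = true) :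
    (Q.flatMap (fun b => l.filter (f b))).Perm l := by
  classical
  rw [List.perm_iff_count]
  intro a
  rw [List.count_flatMap]
  by_cases ha : a ∈ l
  · obtain ⟨b, ⟨hb, hfb⟩, hu⟩ := h a ha
    obtain ⟨Q1, Q2, rfl⟩ := List.append_of_mem hb
    have hn := hQ
    rw [List.nodup_append] at hn
    obtain ⟨-, hn2, hn3⟩ := hn
    rw [List.nodup_cons] at hn2
    have z1 : ∀ b' ∈ Q1, List.count a (l.filter (f b')) = 0 := by
      intro b' hb'
      rw [List.count_eq_zero]
      intro hm
      have := hu b' ⟨List.mem_append_left _ hb', (List.mem_filter.1 hm).2⟩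
      exact hn3 b' hb' b (by simp) this
    have z2 : ∀ b' ∈ Q2, List.count a (l.filter (f b')) = 0 := by
      intro b' hb'
      rw [List.count_eq_zero]
      intro hm
      have := hu b' ⟨List.mem_append_right _ (List.mem_cons_of_mem _ hb'), (List.mem_filter.1 hm).2⟩
      rw [this] at hb'
      exact hn2.1 hb'
    rw [List.map_append, List.sum_append, List.map_cons, List.sum_cons]
    have s1 : (Q1.map (List.count a ∘ fun b => l.filter (f b))).sum = 0 := by
      rw [List.sum_eq_zero]
      intro x hx
      obtain ⟨b', hb', rfl⟩ := List.mem_map.1 hx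
      exact z1 b' hb'
    have s2 : (Q2.map (List.count a ∘ fun b => l.filter (f b))).sum = 0 := by
      rw [List.sum_eq_zero]
      intro x hx
      obtain ⟨b', hb', rfl⟩ := List.mem_map.1 hx
      exact z2 b' hb'
    rw [s1, s2]
    simp only [Function.comp, zero_add, add_zero]
    exact List.count_filter hfb
  · rw [List.count_eq_zero_of_not_mem ha, List.sum_eq_zero]
    intro x hx
    obtain ⟨b', _, rfl⟩ := List.mem_map.1 hx
    simp only [Function.comp]
    rw [List.count_eq_zero]
    intro hm
    exact ha (List.mem_filter.1 hm).1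

/-- the labels of the edges at `v` other than those to children -/
def ini (R : Rt G) (v : V) (a : Lb) : List Lb := if v = R.r then [] else [sw a]

theorem nbl_map (R : Rt G) (L : V → V → Lb) (hL : ∀ v w, L v w = sw (L w v)) (v : V) :
    (R.nbl v).map (L v) = ini R v (L (R.p v) v) ++ (R.ch v).map (fun w => L (R.p w) w) := by
  unfold Rt.nbl ini
  rw [List.map_append]
  congr 1
  · by_cases h : v = R.r
    · rw [if_pos h, if_pos h]; rfl
    · rw [if_neg h, if_neg h, List.map_singleton, hL v (R.p v)]
  · refine List.map_congr_left fun w hw => ?_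
    rw [((R.mem v w).1 hw).2]

/-- The local costs of a decomposition. -/
theorem exists_local (hG : G.IsTree) (R : Rt G) {k : ℕ} {P : Finset G.Subgraph}
    (hP : IsDecomp G k P) (T : V → Lb → ℕ) (v : V) :
    LC k (R.ch v) T (ini R v (labP P (R.p v) v))
      ({H | H ∈ P ∧ v ∈ H.verts}.ncard +
        ((R.ch v).map (fun w => T w (labP P (R.p w) w))).sum) := by
  classical
  set Pv : Finset G.Subgraph := P.filter (fun H => v ∈ H.verts) with hPv
  have hcard : {H | H ∈ P ∧ v ∈ H.verts}.ncard = Pv.card := by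
    rw [← Set.ncard_coe_finset]
    congr 1
    ext H
    simp [hPv]
  refine ⟨fun w => labP P (R.p w) w, Pv.toList.map (grp R P v), ?_, ?_, ?_, ?_⟩
  · intro g hg
    obtain ⟨H, hH, rfl⟩ := List.mem_map.1 hg
    rw [Finset.mem_toList, hPv, Finset.mem_filter] at hH
    exact ok_grp hG R hP hH.1 hH.2
  · rw [List.length_map, Finset.length_toList, ← hcard]
    exact hP.load v
  · rw [← nbl_map R (labP P) (fun _ _ => rfl) v]
    have h1 : (Pv.toList.map (grp R P v)).flatten =
        (Pv.toList.flatMap (fun H => (R.nbl v).filter (fun w => decide (H.Adj v w)))).map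
          (labP P v) := by
      rw [List.map_flatMap]
      rfl
    rw [h1]
    apply List.Perm.map
    refine flatMap_filter_perm _ _ (fun (H : G.Subgraph) w => decide (H.Adj v w))
      (Finset.nodup_toList _) ?_
    intro w hw
    rw [R.mem_nbl hG] at hw
    obtain ⟨H, ⟨hH, hadj⟩, hu⟩ := hP.cover s(v, w) hw
    have hadj' : H.Adj v w := hadj
    refine ⟨H, ⟨?_, by simpa using hadj'⟩, ?_⟩
    · rw [Finset.mem_toList, hPv, Finset.mem_filter]
      exact ⟨hH, H.edge_vert hadj'⟩
    · rintro H' ⟨hH', hadj''⟩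
      rw [Finset.mem_toList, hPv, Finset.mem_filter] at hH'
      exact hu H' ⟨hH'.1, by simpa using hadj''⟩
  · rw [List.length_map, Finset.length_toList, ← hcard]

/-- **Lower bound.** -/
theorem lower (hG : G.IsTree) (R : Rt G) {k : ℕ} {P : Finset G.Subgraph} (hP : IsDecomp G k P)
    (T : V → Lb → ℕ)
    (hT : ∀ v a c, LC k (R.ch v) T (ini R v a) c → T v a ≤ c) (a₀ : Lb) :
    T R.r a₀ + 1 ≤ P.card + Fintype.card V := by
  have h1 : ∀ v, T v (labP P (R.p v) v) ≤ {H | H ∈ P ∧ v ∈ H.verts}.ncard +
      ((R.ch v).map (fun w => T w (labP P (R.p w) w))).sum :=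
    fun v => hT v _ _ (exists_local hG R hP T v)
  have h1r : T R.r a₀ ≤ {H | H ∈ P ∧ R.r ∈ H.verts}.ncard +
      ((R.ch R.r).map (fun w => T w (labP P (R.p w) w))).sum := by
    refine hT R.r _ _ ?_
    have := exists_local hG R hP T R.r
    unfold ini at this ⊢
    rw [if_pos rfl] at this ⊢
    exact this
  have h2 := R.sum_ch (fun w => T w (labP P (R.p w) w))
  have h3 := sum_load hG P (fun H hH => (hP.piece H hH).1.1.connected) hP.cover
  have h4 : ∑ v ∈ Finset.univ.erase R.r, T v (labP P (R.p v) v) + T R.r a₀ ≤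
      ∑ v ∈ Finset.univ.erase R.r, ({H | H ∈ P ∧ v ∈ H.verts}.ncard +
      ((R.ch v).map (fun w => T w (labP P (R.p w) w))).sum) +
      ({H | H ∈ P ∧ R.r ∈ H.verts}.ncard +
      ((R.ch R.r).map (fun w => T w (labP P (R.p w) w))).sum) :=
    Nat.add_le_add (Finset.sum_le_sum fun v _ => h1 v) h1r
  rw [Finset.sum_erase_add _ _ (Finset.mem_univ _), Finset.sum_add_distrib] at h4
  have h5 := Finset.sum_erase_add Finset.univ (fun v => T v (labP P (R.p v) v))
    (Finset.mem_univ R.r)
  simp only at h2 h5
  omega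

end Pool.Agent.V11223.UB
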