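import Pool.Agent.V11223.UB.Upper
import Pool.Agent.V11223.UB.Algo

/-!
# The algorithm and its correctness
-/

set_option linter.unusedSectionVars false

namespace Pool.Agent.V11223.UB

open SimpleGraph

/-- are `v` and `w` adjacent? -/
def adjb (E : List (ℕ × ℕ)) (v w : ℕ) : Bool :=
  E.any fun e => decide (e = (v, w)) || decide (e = (w, v))

/-- the neighbours of `v` -/
def nb (n : ℕ) (E : List (ℕ × ℕ)) (v : ℕ) : List ℕ := (List.range n).filter (adjb E v)

/-- an entry of a table -/
def entry (Tab : List (List Q4)) (v u : ℕ) : Q4 := (Tab.getD v []).getD u (0, 0, 0, 0)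

/-- the costs of a branch -/
def newE (n B k : ℕ) (tl : List Q4) : Q4 :=
  (comb n B k tl [sw (false, false)], comb n B k tl [sw (false, true)],
    comb n B k tl [sw (true, false)], comb n B k tl [sw (true, true)])

/-- recompute all entries -/
def rnd (n B k : ℕ) (E : List (ℕ × ℕ)) (Tab : List (List Q4)) : List (List Q4) :=
  (List.range n).map fun v => (List.range n).map fun u =>
    newE n B k (((nb n E v).filter fun w => !decide (w = u)).map fun w => entry Tab w v)

/-- the final table -/
def tabs (n B k : ℕ) (E : List (ℕ × ℕ)) : List (List Q4) :=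
  (List.range n).foldl (fun Tab _ => rnd n B k E Tab) []

/-- the least total number of groups -/
def total (n B k : ℕ) (E : List (ℕ × ℕ)) : ℕ :=
  comb n B k ((nb n E 0).map fun w => entry (tabs n B k E) w 0) []

/-- the least feasible load -/
def bestK (n : ℕ) (E : List (ℕ × ℕ)) : ℕ :=
  (((List.range n).map fun k => k + 1).filter fun k => decide (total n (2 * n + 1) k E < 2 * n + 1)).headD 0

/-- The algorithm: the input is the list of vertices and the list of edges, the output is the unit
bar visibility number and the least number of pieces. -/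
def algo (x : List ℕ × List (ℕ × ℕ)) : ℕ × ℕ :=
  (bestK x.1.length x.2,
    total x.1.length (2 * x.1.length + 1) (bestK x.1.length x.2) x.2 + 1 - x.1.length)

/-- the entries of the tables as a function -/
def TF (n B k : ℕ) (E : List (ℕ × ℕ)) : ℕ → ℕ → ℕ → Q4
  | 0, _, _ => (0, 0, 0, 0)
  | i + 1, v, u => newE n B k (((nb n E v).filter fun w => !decide (w = u)).map
      fun w => TF n B k E i w v)

theorem ev_newE (n B k : ℕ) (tl : List Q4) (a : Lb) :
    evL (newE n B k tl) a = comb n B k tl [sw a] := by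
  rcases a with ⟨_ | _, _ | _⟩ <;> rfl

theorem entry_tabs (n B k : ℕ) (E : List (ℕ × ℕ)) : ∀ (i : ℕ) {v u : ℕ}, v < n → u < n →
    entry ((List.range i).foldl (fun Tab _ => rnd n B k E Tab) []) v u = TF n B k E i v u := by
  intro i
  induction i with
  | zero =>
    intro v u _ _
    rfl
  | succ i ih =>
    intro v u hv hu
    rw [List.range_succ, List.foldl_append, List.foldl_cons, List.foldl_nil]
    set Tab := (List.range i).foldl (fun Tab _ => rnd n B k E Tab) [] with hTab
    unfold entry rnd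
    rw [List.getD_eq_getElem?_getD, List.getD_eq_getElem?_getD, List.getElem?_map,
      List.getElem?_range hv]
    simp only [Option.map_some, Option.getD_some]
    rw [List.getElem?_map, List.getElem?_range hu]
    simp only [Option.map_some, Option.getD_some]
    show newE _ _ _ _ = newE _ _ _ _
    congr 1
    refine List.map_congr_left fun w hw => ?_
    have hw' : w < n := by
      have := (List.mem_filter.1 (List.mem_filter.1 hw).1).1
      simpa using this
    exact ih hw' hv

theorem LC_congr {ι : Type} {k : ℕ} {ws : List ι} {T T' : ι → Lb → ℕ} {ini : List Lb} {c : ℕ}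
    (h : ∀ w ∈ ws, T w = T' w) (hL : LC k ws T ini c) : LC k ws T' ini c := by
  obtain ⟨lab, gs, h1, h2, h3, h4⟩ := hL
  refine ⟨lab, gs, h1, h2, h3, ?_⟩
  rw [h4]
  congr 2
  exact List.map_congr_left fun w hw => by rw [h w hw]

section
variable {n : ℕ} {G : SimpleGraph (Fin n)}

open Classical in
/-- the tree rooted at vertex `0` -/
noncomputable def mkR (hG : G.IsTree) (h0 : 0 < n) : Rt G where
  r := ⟨0, h0⟩
  p v := if h : v ≠ ⟨0, h0⟩ then (exists_closer hG h).choose else v
  ch v := (List.finRange n).filter fun w => decide (w ≠ ⟨0, h0⟩ ∧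
    (if h : w ≠ ⟨0, h0⟩ then (exists_closer hG h).choose else w) = v)
  hp v hv := by
    rw [dif_pos hv]
    exact (exists_closer hG hv).choose_spec
  nd v := (List.nodup_finRange n).filter _
  mem v w := by
    rw [List.mem_filter]
    simp only [List.mem_finRange, true_and, decide_eq_true_eq]

theorem range_filter (q : ℕ → Bool) :
    (List.range n).filter q = ((List.finRange n).filter fun w => q w.val).map Fin.val := by
  rw [← List.map_coe_finRange_eq_range, List.filter_map]
  rfl

variable {E : List (ℕ × ℕ)}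

theorem adjb_iff (hE : ∀ u v : Fin n, G.Adj u v ↔ (u.val, v.val) ∈ E ∨ (v.val, u.val) ∈ E)
    (v w : Fin n) : adjb E v w = true ↔ G.Adj v w := by
  rw [hE]
  unfold adjb
  simp only [List.any_eq_true, Bool.or_eq_true, decide_eq_true_eq]
  constructor
  · rintro ⟨e, he, rfl | rfl⟩
    · exact Or.inl he
    · exact Or.inr he
  · rintro (h | h)
    · exact ⟨_, h, Or.inl rfl⟩
    · exact ⟨_, h, Or.inr rfl⟩

theorem nb_eq (hE : ∀ u v : Fin n, G.Adj u v ↔ (u.val, v.val) ∈ E ∨ (v.val, u.val) ∈ E)
    (hG : G.IsTree) (h0 : 0 < n) {v : Fin n} (hv : v ≠ ⟨0, h0⟩) :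
    ((nb n E v).filter fun w => !decide (w = ((mkR hG h0).p v).val)) =
      ((mkR hG h0).ch v).map Fin.val := by
  unfold nb
  rw [List.filter_filter, range_filter]
  congr 1
  show _ = (List.finRange n).filter _
  refine List.filter_congr fun w _ => ?_
  have key : (G.Adj v w ∧ w ≠ (mkR hG h0).p v) ↔ (w ≠ ⟨0, h0⟩ ∧ (mkR hG h0).p w = v) := by
    have := (mkR hG h0).adj_iff hG v w
    rw [this]
    constructor
    · rintro ⟨h1 | h1, h2⟩
      · exact absurd h1.2 h2
      · exact ⟨h1.1, h1.2.symm⟩
    · rintro ⟨h1, h2⟩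
      refine ⟨Or.inr ⟨h1, h2.symm⟩, ?_⟩
      rintro rfl
      have h3 := ((mkR hG h0).hp v hv).2
      have h4 := ((mkR hG h0).hp _ h1).2
      rw [h2] at h4
      omega
  rw [Bool.eq_iff_iff, Bool.and_eq_true, decide_eq_true_eq]
  rw [adjb_iff hE]
  refine Iff.trans ?_ (Iff.trans key ?_)
  · rw [and_comm]
    refine and_congr_right fun _ => ?_
    simp [Fin.ext_iff]
  · rfl

theorem nb_root (hE : ∀ u v : Fin n, G.Adj u v ↔ (u.val, v.val) ∈ E ∨ (v.val, u.val) ∈ E)
    (hG : G.IsTree) (h0 : 0 < n) :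
    nb n E 0 = ((mkR hG h0).ch ⟨0, h0⟩).map Fin.val := by
  unfold nb
  rw [range_filter]
  congr 1
  show _ = (List.finRange n).filter _
  refine List.filter_congr fun w _ => ?_
  have key : G.Adj ⟨0, h0⟩ w ↔ (w ≠ ⟨0, h0⟩ ∧ (mkR hG h0).p w = ⟨0, h0⟩) := by
    have := (mkR hG h0).adj_iff hG ⟨0, h0⟩ w
    rw [this]
    constructor
    · rintro (h1 | h1)
      · exact absurd rfl h1.1
      · exact ⟨h1.1, h1.2.symm⟩
    · rintro ⟨h1, h2⟩
      exact Or.inr ⟨h1, h2.symm⟩
  rw [Bool.eq_iff_iff, decide_eq_true_eq]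
  exact (adjb_iff hE ⟨0, h0⟩ w).trans key

theorem depth_lt (hG : G.IsTree) (u v : Fin n) : G.dist u v < n := by
  obtain ⟨p, hp, hl⟩ := hG.connected.exists_path_of_dist u v
  rw [← hl]
  simpa using hp.length_lt

/-- The tables do not change any more after `n` rounds. -/
theorem TF_stable (hE : ∀ u v : Fin n, G.Adj u v ↔ (u.val, v.val) ∈ E ∨ (v.val, u.val) ∈ E)
    (hG : G.IsTree) (h0 : 0 < n) (B k : ℕ) : ∀ (i : ℕ) (v : Fin n), v ≠ ⟨0, h0⟩ →
    n ≤ i + G.dist ⟨0, h0⟩ v →
    TF n B k E (i + 1) v ((mkR hG h0).p v) = TF n B k E i v ((mkR hG h0).p v) := by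
  intro i
  induction i with
  | zero =>
    intro v _ h
    have := depth_lt hG ⟨0, h0⟩ v
    omega
  | succ i ih =>
    intro v hv h
    rw [TF, TF]
    rw [nb_eq hE hG h0 hv, List.map_map, List.map_map]
    congr 1
    refine List.map_congr_left fun w hw => ?_
    obtain ⟨h1, h2⟩ := ((mkR hG h0).mem v w).1 hw
    have h3 := ((mkR hG h0).hp w h1).2
    rw [h2] at h3
    have h3' : G.dist ⟨0, h0⟩ w = G.dist ⟨0, h0⟩ v + 1 := h3
    have h4 := ih w h1 (by omega)
    rw [h2] at h4
    exact h4

/-- the costs of the branches -/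
noncomputable def Tv (hG : G.IsTree) (h0 : 0 < n) (E : List (ℕ × ℕ)) (B k : ℕ) (v : Fin n)
    (a : Lb) : ℕ :=
  if v = ⟨0, h0⟩ then total n B k E else evL (TF n B k E n v ((mkR hG h0).p v)) a

theorem Tv_eq (hE : ∀ u v : Fin n, G.Adj u v ↔ (u.val, v.val) ∈ E ∨ (v.val, u.val) ∈ E)
    (hG : G.IsTree) (h0 : 0 < n) (B k : ℕ) (v : Fin n) (a : Lb) :
    Tv hG h0 E B k v a = comb n B k (((mkR hG h0).ch v).map fun w : Fin n => TF n B k E n w.val v.val)
      (ini (mkR hG h0) v a) := by
  unfold Tv ini
  by_cases hv : v = ⟨0, h0⟩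
  · rw [if_pos hv, if_pos (show v = (mkR hG h0).r from hv)]
    subst hv
    unfold total
    rw [nb_root hE hG h0, List.map_map]
    congr 1
    refine List.map_congr_left fun w _ => ?_
    exact entry_tabs n B k E n w.2 h0
  · rw [if_neg hv, if_neg (show v ≠ (mkR hG h0).r from hv)]
    rw [← TF_stable hE hG h0 B k n v hv (by omega)]
    rw [TF, ev_newE, nb_eq hE hG h0 hv, List.map_map]
    rfl

theorem length_ch (hG : G.IsTree) (h0 : 0 < n) (v : Fin n) (a : Lb) :
    (ini (mkR hG h0) v a).length + ((mkR hG h0).ch v).length ≤ n := by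
  have h1 : ((mkR hG h0).nbl v).length ≤ n := by
    have := ((mkR hG h0).nodup_nbl v).length_le_card
    simpa using this
  have h2 : ((mkR hG h0).nbl v).length =
      (ini (mkR hG h0) v a).length + ((mkR hG h0).ch v).length := by
    unfold Rt.nbl ini
    rw [List.length_append]
    split_ifs <;> simp
  omega

theorem Tv_congr (hG : G.IsTree) (h0 : 0 < n) (B k : ℕ) (v : Fin n) :
    ∀ w ∈ (mkR hG h0).ch v, Tv hG h0 E B k w = fun a => evL (TF n B k E n w v) a := by
  intro w hw
  obtain ⟨h1, h2⟩ := ((mkR hG h0).mem v w).1 hw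
  funext a
  unfold Tv
  rw [if_neg (show w ≠ ⟨0, h0⟩ from h1), h2]

theorem total_le (hE : ∀ u v : Fin n, G.Adj u v ↔ (u.val, v.val) ∈ E ∨ (v.val, u.val) ∈ E)
    (hG : G.IsTree) (h0 : 0 < n) (B k : ℕ) {P : Finset G.Subgraph} (hP : IsDecomp G k P) :
    total n B k E + 1 ≤ P.card + n := by
  have h1 := lower hG (mkR hG h0) hP (Tv hG h0 E B k) (fun v a c hL => by
    rw [Tv_eq hE]
    exact comb_le_of_LC (length_ch hG h0 v a) (LC_congr (Tv_congr hG h0 B k v) hL))
    (false, false)
  rw [Fintype.card_fin] at h1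
  have h2 : Tv hG h0 E B k (mkR hG h0).r (false, false) = total n B k E := by
    unfold Tv
    rw [if_pos]
    rfl
  rw [h2] at h1
  exact h1

theorem exists_of_total_lt
    (hE : ∀ u v : Fin n, G.Adj u v ↔ (u.val, v.val) ∈ E ∨ (v.val, u.val) ∈ E)
    (hG : G.IsTree) (h0 : 0 < n) (B k : ℕ) (h : total n B k E < B) :
    ∃ P, IsDecomp G k P ∧ P.card + n ≤ total n B k E + 1 := by
  have h2 : Tv hG h0 E B k (mkR hG h0).r (false, false) = total n B k E := by
    unfold Tv
    rw [if_pos]
    rfl
  obtain ⟨P, h3, h4⟩ := upper hG (mkR hG h0) (k := k) (B := B) (Tv hG h0 E B k) (fun v a hL => by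
    rw [Tv_eq hE] at hL ⊢
    exact LC_congr (fun w hw => (Tv_congr hG h0 B k v w hw).symm)
      (LC_of_comb_lt ((mkR hG h0).nd v) hL)) (a₀ := (false, false)) (by rw [h2]; exact h)
  rw [Fintype.card_fin, h2] at h4
  exact ⟨P, h3, h4⟩

/-- Every tree decomposes into single edges. -/
theorem exists_decomp (hG : G.IsTree) (h0 : 0 < n) : ∃ P, IsDecomp G n P := by
  let C : Cfg (mkR hG h0) n :=
    { lab := fun _ => (false, false)
      m := fun v => ((mkR hG h0).nbl v).length
      c := fun v w => ((mkR hG h0).nbl v).idxOf w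
      hm := fun v => by
        have := ((mkR hG h0).nodup_nbl v).length_le_card
        simpa using this
      hc := fun v w hw => List.idxOf_lt_length_of_mem hw }
  refine ⟨C.pieces hG, C.isDecomp hG ?_⟩
  intro v i hi
  have hi' : i < ((mkR hG h0).nbl v).length := hi
  have h1 : ((mkR hG h0).nbl v).filter (fun w => decide (C.c v w = i)) =
      [((mkR hG h0).nbl v)[i]] := by
    rw [← List.perm_singleton]
    rw [List.perm_ext_iff_of_nodup (((mkR hG h0).nodup_nbl v).filter _) (List.nodup_singleton _)]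
    intro w
    rw [List.mem_filter, List.mem_singleton]
    simp only [decide_eq_true_eq]
    constructor
    · rintro ⟨h2, h3⟩
      have h3' : ((mkR hG h0).nbl v).idxOf w = i := h3
      subst h3'
      exact (List.getElem_idxOf _).symm
    · rintro rfl
      refine ⟨List.getElem_mem _, ?_⟩
      show ((mkR hG h0).nbl v).idxOf _ = i
      exact ((mkR hG h0).nodup_nbl v).idxOf_getElem i hi'
  unfold Cfg.gl
  rw [h1]
  refine ⟨by simp, by simp, by simp, fun h => ?_⟩
  simp at h

theorem card_le (hG : G.IsTree) {k : ℕ} {P : Finset G.Subgraph} (hP : IsDecomp G k P) :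
    P.card + 1 ≤ n := by
  classical
  have h1 := sum_load hG P (fun H hH => (hP.piece H hH).1.1.connected) hP.cover
  have h2 : ∑ v, {H | H ∈ P ∧ v ∈ H.verts}.ncard = ∑ H ∈ P, H.verts.ncard := by
    have e1 : ∀ v : Fin n, {H | H ∈ P ∧ v ∈ H.verts}.ncard =
        ∑ H ∈ P, if v ∈ H.verts then 1 else 0 := by
      intro v
      rw [← Finset.card_filter, ← Set.ncard_coe_finset]
      congr 1
      ext H
      simp
    have e2 : ∀ H : G.Subgraph, H.verts.ncard = ∑ v, if v ∈ H.verts then 1 else 0 := by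
      intro H
      rw [← Finset.card_filter, ← Set.ncard_coe_finset]
      congr 1
      ext v
      simp
    simp_rw [e1, e2]
    exact Finset.sum_comm
  have h3 : ∑ H ∈ P, 2 ≤ ∑ H ∈ P, H.verts.ncard := by
    refine Finset.sum_le_sum fun H hH => ?_
    obtain ⟨h4, h5⟩ := hP.piece H hH
    rw [card_verts hG h4.1.connected]
    have := (Set.ncard_pos (Set.toFinite _)).2 h5
    omega
  rw [Finset.sum_const, smul_eq_mul] at h3
  rw [Fintype.card_fin] at h1
  omega

theorem algo_correct (G : SimpleGraph (Fin n)) (hG : G.IsTree)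
    (hE : ∀ u v : Fin n, G.Adj u v ↔ (u.val, v.val) ∈ E ∨ (v.val, u.val) ∈ E) :
    IsLeast {k | 1 ≤ k ∧ ∃ P, IsDecomp G k P} (algo (List.range n, E)).1 ∧
    IsLeast {l | ∃ P, IsDecomp G (algo (List.range n, E)).1 P ∧ P.card = l}
      (algo (List.range n, E)).2 := by
  have h0 : 0 < n := by
    obtain ⟨v⟩ := hG.connected.nonempty
    exact v.pos
  have hfeas : ∀ k, total n (2 * n + 1) k E < 2 * n + 1 ↔ ∃ P, IsDecomp G k P := by
    intro k
    constructor
    · intro h
      obtain ⟨P, hP, _⟩ := exists_of_total_lt hE hG h0 (2 * n + 1) k h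
      exact ⟨P, hP⟩
    · rintro ⟨P, hP⟩
      have h1 := total_le hE hG h0 (2 * n + 1) k hP
      have h2 := card_le hG hP
      omega
  have e1 : (algo (List.range n, E)).1 = bestK n E := by
    unfold algo
    simp only [List.length_range]
  have e2 : (algo (List.range n, E)).2 = total n (2 * n + 1) (bestK n E) E + 1 - n := by
    unfold algo
    simp only [List.length_range]
  rw [e1, e2]
  -- the least feasible load
  have hK : IsLeast {k | 1 ≤ k ∧ ∃ P, IsDecomp G k P} (bestK n E) := by
    unfold bestK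
    set l := ((List.range n).map fun k => k + 1).filter
      fun k => decide (total n (2 * n + 1) k E < 2 * n + 1) with hl
    have hsort : l.Pairwise (· < ·) := by
      refine List.Pairwise.filter _ ?_
      rw [List.pairwise_map]
      exact List.pairwise_lt_range.imp fun h => by omega
    have hmem : ∀ k, k ∈ l ↔ (1 ≤ k ∧ k ≤ n) ∧ ∃ P, IsDecomp G k P := by
      intro k
      rw [hl, List.mem_filter, decide_eq_true_eq, hfeas, List.mem_map]
      refine and_congr_left fun _ => ?_
      constructor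
      · rintro ⟨j, hj, rfl⟩
        rw [List.mem_range] at hj
        omega
      · rintro ⟨h1, h2⟩
        exact ⟨k - 1, by rw [List.mem_range]; omega, by omega⟩
    have hn : n ∈ l := (hmem n).2 ⟨⟨h0, le_refl _⟩, exists_decomp hG h0⟩
    cases hl' : l with
    | nil =>
      rw [hl'] at hn
      simp at hn
    | cons a t =>
      rw [List.headD_cons]
      have ha := (hmem a).1 (by rw [hl']; simp)
      refine ⟨⟨ha.1.1, ha.2⟩, ?_⟩
      rintro k ⟨hk1, hk2⟩
      by_cases hkn : k ≤ n
      · have hk := (hmem k).2 ⟨⟨hk1, hkn⟩, hk2⟩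
        rw [hl'] at hk hsort
        rcases List.mem_cons.1 hk with rfl | hk
        · exact le_refl _
        · exact ((List.pairwise_cons.1 hsort).1 k hk).le
      · have := ha.1.2
        omega
  refine ⟨hK, ?_⟩
  obtain ⟨P, hP, hPc⟩ := exists_of_total_lt hE hG h0 (2 * n + 1) (bestK n E)
    ((hfeas _).2 hK.1.2)
  have h3 := total_le hE hG h0 (2 * n + 1) (bestK n E) hP
  refine ⟨⟨P, hP, by omega⟩, ?_⟩
  rintro l ⟨P', hP', rfl⟩
  have h4 := total_le hE hG h0 (2 * n + 1) (bestK n E) hP'
  omega

end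

end Pool.Agent.V11223.UB
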