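import Pool.Agent.V11223.UB.Defs

/-!
# Distances in trees, and a local description of UBVTs
-/

namespace Pool.Agent.V11223.UB

open SimpleGraph

section
variable {W : Type} {G : SimpleGraph W}

theorem dc (G : SimpleGraph W) (x y : W) : G.dist x y = G.dist y x := SimpleGraph.dist_comm

theorem step_cases (hG : G.IsTree) (u : W) {x y : W} (h : G.Adj x y) :
    G.dist u x = G.dist u y + 1 ∨ G.dist u y = G.dist u x + 1 :=
  hG.dist_eq_dist_add_one_of_adj u h

theorem exists_closer (hG : G.IsTree) {u x : W} (h : x ≠ u) :
    ∃ w, G.Adj x w ∧ G.dist u x = G.dist u w + 1 := by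
  obtain ⟨p, hp⟩ := hG.connected.exists_walk_length_eq_dist x u
  cases p with
  | nil => exact absurd rfl h
  | @cons _ w _ hadj q =>
    refine ⟨w, hadj, ?_⟩
    have h1 : G.dist w u ≤ q.length := G.dist_le q
    have h2 := step_cases hG u hadj
    rw [Walk.length_cons] at hp
    rw [dc G x u] at hp
    rw [dc G w u] at h1
    omega

theorem closer_unique (hG : G.IsTree) {u x w w' : W} (h : G.Adj x w) (h' : G.Adj x w')
    (hd : G.dist u x = G.dist u w + 1) (hd' : G.dist u x = G.dist u w' + 1) : w = w' := by
  obtain ⟨p, hp⟩ := hG.connected.exists_walk_length_eq_dist u w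
  obtain ⟨p', hp'⟩ := hG.connected.exists_walk_length_eq_dist u w'
  have h1 : (p.concat h.symm).IsPath := by
    apply Walk.isPath_of_length_eq_dist
    rw [Walk.length_concat, hp, hd]
  have h2 : (p'.concat h'.symm).IsPath := by
    apply Walk.isPath_of_length_eq_dist
    rw [Walk.length_concat, hp', hd']
  have h3 : p.concat h.symm = p'.concat h'.symm := (hG.existsUnique_path u x).unique h1 h2
  have h4 := congrArg Walk.penultimate h3
  simpa using h4

/-- If the neighbour `w` of `x` towards `s` does not lie towards `z`, then `x` lies between `s`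
and `z`. -/
theorem between_of_not_closer (hG : G.IsTree) {s z : W} : ∀ (m : ℕ) {x w : W}, G.dist z x = m →
    G.Adj x w → G.dist s x = G.dist s w + 1 → G.dist z w = G.dist z x + 1 →
    G.dist s z = G.dist s x + G.dist x z := by
  intro m
  induction m with
  | zero =>
    intro x w hm _ _ _
    have : z = x := (hG.connected.dist_eq_zero_iff).1 hm
    subst this
    simp
  | succ m ih =>
    intro x w hm hadj hs hz
    have hxz : x ≠ z := by
      rintro rfl
      simp at hm
    obtain ⟨y, hy, hyd⟩ := exists_closer hG hxz
    have hyw : y ≠ w := by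
      rintro rfl
      omega
    have hys : G.dist s y = G.dist s x + 1 := by
      rcases step_cases hG s hy with h | h
      · exact absurd (closer_unique hG hy hadj h hs) hyw
      · exact h
    have := ih (x := y) (w := x) (by omega) hy.symm hys (by omega)
    rw [this, hys, dc G x z, dc G y z]
    omega

/-- Same with the assumption on an arbitrary neighbour towards `z`. -/
theorem between_of_closer_ne (hG : G.IsTree) {s z x w : W} (hadj : G.Adj x w)
    (hz : G.dist z x = G.dist z w + 1) (hs : G.dist s w = G.dist s x + 1) :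
    G.dist s z = G.dist s x + G.dist x z := by
  have := between_of_not_closer hG (s := z) (z := s) _ rfl hadj hz hs
  rw [dc G s z, this, dc G s x, dc G x z]
  omega

/-- A point on a geodesic lies on the path. -/
theorem mem_support_of_between (hG : G.IsTree) {s t z : W} (p : G.Walk s t) (hp : p.IsPath)
    (h : G.dist s t = G.dist s z + G.dist z t) : z ∈ p.support := by
  obtain ⟨q, hq⟩ := hG.connected.exists_walk_length_eq_dist s z
  obtain ⟨r, hr⟩ := hG.connected.exists_walk_length_eq_dist z t
  have h1 : (q.append r).IsPath := by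
    apply Walk.isPath_of_length_eq_dist
    rw [Walk.length_append, hq, hr, h]
  have h2 : p = q.append r := (hG.existsUnique_path s t).unique hp h1
  rw [h2, Walk.mem_support_append_iff]
  exact Or.inl q.end_mem_support

theorem length_eq_dist (hG : G.IsTree) {s t : W} (p : G.Walk s t) (hp : p.IsPath) :
    p.length = G.dist s t := by
  obtain ⟨q, hq⟩ := hG.connected.exists_walk_length_eq_dist s t
  have h1 : q.IsPath := Walk.isPath_of_length_eq_dist _ hq
  rw [(hG.existsUnique_path s t).unique hp h1, hq]

theorem between_of_mem_support (hG : G.IsTree) {s t z : W} (p : G.Walk s t) (hp : p.IsPath)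
    (hz : z ∈ p.support) : G.dist s t = G.dist s z + G.dist z t := by
  classical
  have h1 := length_eq_dist hG p hp
  have h2 := length_eq_dist hG _ (hp.takeUntil hz)
  have h3 := length_eq_dist hG _ (hp.dropUntil hz)
  have h4 := congrArg Walk.length (p.take_spec hz)
  rw [Walk.length_append] at h4
  omega

/-- the vertices of degree `3` -/
def D3 (G : SimpleGraph W) : Set W := {v | (G.neighborSet v).ncard = 3}

/-- At a vertex of degree `3` of a UBVT some direction leads to no vertex of degree `3`. -/
theorem IsUBVT.light [Finite W] (h : IsUBVT G) {v : W} (hv : v ∈ D3 G) :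
    ∃ w, G.Adj v w ∧ ∀ z ∈ D3 G, G.dist z w = G.dist z v + 1 := by
  obtain ⟨hG, _, a, b, p, hp, hD⟩ := h
  have hN : (G.neighborSet v).ncard = 3 := hv
  -- a neighbour that is neither towards `a` nor towards `b`
  have hex : ∃ w, G.Adj v w ∧ G.dist a w = G.dist a v + 1 ∧ G.dist b w = G.dist b v + 1 := by
    by_contra hcon
    push Not at hcon
    have hsub : G.neighborSet v ⊆
        {w | G.Adj v w ∧ G.dist a v = G.dist a w + 1} ∪
          {w | G.Adj v w ∧ G.dist b v = G.dist b w + 1} := by
      intro w hw
      have hw' : G.Adj v w := hw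
      rcases step_cases hG a hw' with h1 | h1
      · exact Or.inl ⟨hw', h1⟩
      · rcases step_cases hG b hw' with h2 | h2
        · exact Or.inr ⟨hw', h2⟩
        · exact absurd h2 (hcon w hw' h1)
    have hs1 : ∀ c : W, {w | G.Adj v w ∧ G.dist c v = G.dist c w + 1}.ncard ≤ 1 := by
      intro c
      rw [Set.ncard_le_one_iff]
      intro x y hx hy
      exact closer_unique hG hx.1 hy.1 hx.2 hy.2
    have := (Set.ncard_le_ncard hsub (Set.toFinite _)).trans (Set.ncard_union_le _ _)
    have h1 := hs1 a
    have h2 := hs1 b
    omega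
  obtain ⟨w, hw, ha, hb⟩ := hex
  refine ⟨w, hw, fun z hz => ?_⟩
  rcases step_cases hG z hw with h1 | h1
  · exfalso
    have h2 := between_of_closer_ne hG hw h1 ha
    have h3 := between_of_closer_ne hG hw h1 hb
    have h4 := between_of_mem_support hG p hp (hD v hv)
    have h5 := between_of_mem_support hG p hp (hD z hz)
    rw [dc G z b] at h5
    rw [dc G v b] at h4
    have h6 : G.dist v z = 0 := by omega
    have h7 : v = z := (hG.connected.dist_eq_zero_iff).1 h6
    subst h7
    simp at h1
  · exact h1

/-- Conversely, a tree with maximum degree at most `3` in which at every vertex of degree `3` some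
direction leads to no vertex of degree `3` is a UBVT. -/
theorem isUBVT_of_light [Finite W] (hG : G.IsTree) (hdeg : ∀ v, (G.neighborSet v).ncard ≤ 3)
    (hl : ∀ v ∈ D3 G, ∃ w, G.Adj v w ∧ ∀ z ∈ D3 G, G.dist z w = G.dist z v + 1) : IsUBVT G := by
  classical
  refine ⟨hG, hdeg, ?_⟩
  have := Fintype.ofFinite W
  by_cases hne : ((D3 G) ×ˢ (D3 G)).Nonempty
  · obtain ⟨⟨s, t⟩, hst, hmax⟩ := Set.exists_max_image ((D3 G) ×ˢ (D3 G))
      (fun q => G.dist q.1 q.2) (Set.toFinite _) hne
    obtain ⟨hs, ht⟩ : s ∈ D3 G ∧ t ∈ D3 G := hst
    obtain ⟨p, hp, -⟩ := hG.existsUnique_path s t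
    refine ⟨s, t, p, hp, fun z hz => ?_⟩
    have hzD : z ∈ D3 G := hz
    -- the vertex on the geodesic closest to `z`
    obtain ⟨x, hx, hxmin⟩ := Set.exists_min_image {x | G.dist s t = G.dist s x + G.dist x t}
      (fun x => G.dist x z) (Set.toFinite _) ⟨s, by simp⟩
    have hx' : G.dist s t = G.dist s x + G.dist x t := hx
    by_cases hxz : x = z
    · subst hxz
      exact mem_support_of_between hG p hp hx'
    exfalso
    obtain ⟨y, hy, hyd⟩ := exists_closer hG (u := z) hxz
    have hdz : G.dist z y < G.dist z x := by omega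
    have hnot : G.dist s t ≠ G.dist s y + G.dist y t := by
      intro h
      have := hxmin y h
      rw [dc G x z, dc G y z] at this
      omega
    have htri := hG.connected.dist_triangle (u := s) (v := y) (w := t)
    have hys : G.dist s y = G.dist s x + 1 := by
      rcases step_cases hG s hy with h | h
      · exfalso
        have h2 := step_cases hG t hy
        rw [dc G t x, dc G t y] at h2
        omega
      · exact h
    have hyt : G.dist t y = G.dist t x + 1 := by
      rcases step_cases hG t hy with h | h
      · exfalso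
        rw [dc G t x, dc G t y] at h
        omega
      · exact h
    have hsz := between_of_closer_ne hG (s := s) (z := z) hy hyd hys
    have htz := between_of_closer_ne hG (s := t) (z := z) hy hyd hyt
    have hm1 := hmax (s, z) ⟨hs, hzD⟩
    have hm2 := hmax (t, z) ⟨ht, hzD⟩
    simp only at hm1 hm2
    have hxz0 : 0 < G.dist x z := hG.connected.pos_dist_of_ne hxz
    have hxs : x ≠ s := by
      rintro rfl
      rw [dc G t x] at htz
      simp at hx'
      omega
    have hxt : x ≠ t := by
      rintro rfl
      simp at hx'
      omega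
    obtain ⟨ws, hws, hwsd⟩ := exists_closer hG (u := s) hxs
    obtain ⟨wt, hwt, hwtd⟩ := exists_closer hG (u := t) hxt
    have h1 : ws ≠ wt := by
      rintro rfl
      have := hG.connected.dist_triangle (u := s) (v := ws) (w := t)
      rw [dc G t x, dc G t ws] at hwtd
      omega
    have h2 : ws ≠ y := by rintro rfl; omega
    have h3 : wt ≠ y := by rintro rfl; omega
    have hsub : ({ws, wt, y} : Set W) ⊆ G.neighborSet x := by
      intro w hw
      simp only [Set.mem_insert_iff, Set.mem_singleton_iff] at hw
      rcases hw with rfl | rfl | rfl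
      · exact hws
      · exact hwt
      · exact hy
    have hc3 : ({ws, wt, y} : Set W).ncard = 3 := Set.ncard_eq_three.2 ⟨ws, wt, y, h1, h2, h3, rfl⟩
    have heq : ({ws, wt, y} : Set W) = G.neighborSet x :=
      Set.eq_of_subset_of_ncard_le hsub (by rw [hc3]; exact hdeg x) (Set.toFinite _)
    have hxD : x ∈ D3 G := by
      show (G.neighborSet x).ncard = 3
      rw [← heq, hc3]
    obtain ⟨w, hw, hwl⟩ := hl x hxD
    have hwm : w ∈ ({ws, wt, y} : Set W) := by rw [heq]; exact hw
    simp only [Set.mem_insert_iff, Set.mem_singleton_iff] at hwm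
    have e1 := hwl s hs
    have e2 := hwl t ht
    have e3 := hwl z hzD
    rcases hwm with rfl | rfl | rfl
    · omega
    · omega
    · omega
  · obtain ⟨a⟩ := hG.connected.nonempty
    refine ⟨a, a, Walk.nil, Walk.IsPath.nil, fun v hv => ?_⟩
    exact absurd ⟨(v, v), (⟨hv, hv⟩ : v ∈ D3 G ∧ v ∈ D3 G)⟩ hne

end

end Pool.Agent.V11223.UB
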