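import Pool.Agent.V11223.UB.Sub
import Pool.Agent.V11223.UB.Local

/-!
# Rooted trees
-/

set_option linter.unusedSectionVars false

namespace Pool.Agent.V11223.UB

open SimpleGraph

variable {V : Type} [Fintype V] [DecidableEq V] {G : SimpleGraph V}

/-- a rooting of the tree `G` -/
structure Rt (G : SimpleGraph V) where
  /-- the root -/
  r : V
  /-- the parent -/
  p : V → V
  /-- the list of children -/
  ch : V → List V
  /-- the parent is closer to the root -/
  hp : ∀ v, v ≠ r → G.Adj v (p v) ∧ G.dist r v = G.dist r (p v) + 1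
  /-- no repetitions -/
  nd : ∀ v, (ch v).Nodup
  /-- children are the vertices with this parent -/
  mem : ∀ v w, w ∈ ch v ↔ w ≠ r ∧ p w = v

namespace Rt

variable (R : Rt G)

theorem adj_iff (hG : G.IsTree) (v w : V) :
    G.Adj v w ↔ (v ≠ R.r ∧ w = R.p v) ∨ (w ≠ R.r ∧ v = R.p w) := by
  constructor
  · intro h
    rcases step_cases hG R.r h with h1 | h1
    · have hv : v ≠ R.r := by rintro rfl; simp at h1
      obtain ⟨h2, h3⟩ := R.hp v hv
      exact Or.inl ⟨hv, closer_unique hG h h2 h1 h3⟩
    · have hw : w ≠ R.r := by rintro rfl; simp at h1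
      obtain ⟨h2, h3⟩ := R.hp w hw
      exact Or.inr ⟨hw, closer_unique hG h.symm h2 h1 h3⟩
  · rintro (⟨h, rfl⟩ | ⟨h, rfl⟩)
    · exact (R.hp v h).1
    · exact (R.hp w h).1.symm

/-- the list of neighbours: the parent and the children -/
def nbl (v : V) : List V := (if v = R.r then [] else [R.p v]) ++ R.ch v

theorem mem_nbl (hG : G.IsTree) (v w : V) : w ∈ R.nbl v ↔ G.Adj v w := by
  unfold nbl
  rw [R.adj_iff hG, List.mem_append, R.mem]
  by_cases h : v = R.r
  · rw [if_pos h]
    simp [h, eq_comm]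
  · rw [if_neg h]
    simp [h, eq_comm]

theorem nodup_nbl (v : V) : (R.nbl v).Nodup := by
  unfold nbl
  by_cases h : v = R.r
  · rw [if_pos h]
    simpa using R.nd v
  · rw [if_neg h]
    simp only [List.cons_append, List.nil_append, List.nodup_cons]
    refine ⟨?_, R.nd v⟩
    rw [R.mem]
    rintro ⟨h1, h2⟩
    have h3 := (R.hp _ h1).2
    have h4 := (R.hp _ h).2
    rw [h2] at h3
    omega

theorem sum_ch (F : V → ℕ) :
    ∑ v, ((R.ch v).map F).sum + F R.r = ∑ v, F v := by
  have h1 : ∀ v, ((R.ch v).map F).sum =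
      ∑ w ∈ (Finset.univ.erase R.r).filter (fun w => R.p w = v), F w := by
    intro v
    rw [← List.sum_toFinset _ (R.nd v)]
    refine Finset.sum_congr ?_ fun _ _ => rfl
    ext w
    simp [R.mem]
  simp_rw [h1]
  rw [Finset.sum_fiberwise, Finset.sum_erase_add _ _ (Finset.mem_univ _)]

end Rt

end Pool.Agent.V11223.UB
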