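import Pool.Agent.V11223.UB.Metric

/-!
# Subtrees of a tree and the number of pieces of a decomposition
-/

namespace Pool.Agent.V11223.UB

open SimpleGraph

variable {V : Type} {G : SimpleGraph V}

theorem coe_isTree (hG : G.IsTree) {H : G.Subgraph} (hc : H.coe.Connected) : H.coe.IsTree :=
  ⟨hc, hG.isAcyclic.subgraph H⟩

theorem dist_coe (hG : G.IsTree) {H : G.Subgraph} (hc : H.coe.Connected) (x y : H.verts) :
    H.coe.dist x y = G.dist x y := by
  obtain ⟨p, hp, hl⟩ := hc.exists_path_of_dist x y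
  have h1 : (p.map H.hom).IsPath := hp.map H.hom_injective
  have h2 := length_eq_dist hG _ h1
  rw [Walk.length_map] at h2
  rw [← hl, h2]
  rfl

theorem ncard_coe {H : G.Subgraph} (v : H.verts) :
    (H.coe.neighborSet v).ncard = (H.neighborSet v).ncard :=
  Nat.card_congr (Subgraph.coeNeighborSetEquiv v)

/-- the vertices of degree `3` of a subgraph -/
def S3 (H : G.Subgraph) : Set V := {v | (H.neighborSet v).ncard = 3}

theorem S3_verts {H : G.Subgraph} {v : V} (h : v ∈ S3 H) : v ∈ H.verts := by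
  have h' : (H.neighborSet v).ncard = 3 := h
  have hne : (H.neighborSet v).Nonempty := by
    apply Set.nonempty_of_ncard_ne_zero
    omega
  obtain ⟨w, hw⟩ := hne
  exact H.edge_vert hw

theorem mem_D3_iff {H : G.Subgraph} (v : H.verts) : v ∈ D3 H.coe ↔ (v : V) ∈ S3 H := by
  unfold D3 S3
  simp only [Set.mem_ofPred_eq]
  rw [ncard_coe]

/-- At a vertex of degree `3` of a piece some direction leads to no vertex of degree `3`. -/
theorem light_of_ubvt [Finite V] (hG : G.IsTree) {H : G.Subgraph} (h : IsUBVT H.coe) {v : V}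
    (hv : v ∈ S3 H) : ∃ w, H.Adj v w ∧ ∀ z ∈ S3 H, G.dist z w = G.dist z v + 1 := by
  have hv' : (⟨v, S3_verts hv⟩ : H.verts) ∈ D3 H.coe := (mem_D3_iff _).2 hv
  obtain ⟨w, hw, hl⟩ := h.light hv'
  refine ⟨w, by simpa using hw, fun z hz => ?_⟩
  have := hl ⟨z, S3_verts hz⟩ ((mem_D3_iff _).2 hz)
  rw [dist_coe hG h.1.connected, dist_coe hG h.1.connected] at this
  exact this

theorem ubvt_of_light [Finite V] (hG : G.IsTree) {H : G.Subgraph} (hc : H.coe.Connected)
    (hd : ∀ v ∈ H.verts, (H.neighborSet v).ncard ≤ 3)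
    (hl : ∀ v ∈ S3 H, ∃ w, H.Adj v w ∧ ∀ z ∈ S3 H, G.dist z w = G.dist z v + 1) :
    IsUBVT H.coe := by
  refine isUBVT_of_light (coe_isTree hG hc) (fun v => ?_) (fun v hv => ?_)
  · rw [ncard_coe]
    exact hd v v.2
  · obtain ⟨w, hw, h⟩ := hl v ((mem_D3_iff _).1 hv)
    refine ⟨⟨w, H.edge_vert hw.symm⟩, by simpa using hw, fun z hz => ?_⟩
    rw [dist_coe hG hc, dist_coe hG hc]
    exact h z ((mem_D3_iff _).1 hz)

/-- A subtree has one more vertex than edges. -/
theorem card_verts [Finite V] (hG : G.IsTree) {H : G.Subgraph} (hc : H.coe.Connected) :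
    H.verts.ncard = H.edgeSet.ncard + 1 := by
  classical
  have := Fintype.ofFinite V
  have h1 := (coe_isTree hG hc).card_edgeFinset
  have h2 : H.edgeSet.ncard = H.coe.edgeFinset.card := by
    rw [← Subgraph.image_coe_edgeSet_coe, Set.ncard_image_of_injective]
    · rw [← SimpleGraph.coe_edgeFinset, Set.ncard_coe_finset]
    · exact Sym2.map.injective Subtype.val_injective
  rw [h2, h1, ← Nat.card_eq_fintype_card]
  rfl

/-- The total load of a decomposition. -/
theorem sum_load [Fintype V] [DecidableEq V] (hG : G.IsTree) (P : Finset G.Subgraph)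
    (hc : ∀ H ∈ P, H.coe.Connected)
    (hcov : ∀ e ∈ G.edgeSet, ∃! H, H ∈ P ∧ e ∈ H.edgeSet) :
    ∑ v, {H | H ∈ P ∧ v ∈ H.verts}.ncard + 1 = P.card + Fintype.card V := by
  classical
  have h1 : ∑ v, {H | H ∈ P ∧ v ∈ H.verts}.ncard = ∑ H ∈ P, H.verts.ncard := by
    have e1 : ∀ v : V, {H | H ∈ P ∧ v ∈ H.verts}.ncard = ∑ H ∈ P, if v ∈ H.verts then 1 else 0 := by
      intro v
      rw [← Finset.card_filter, ← Set.ncard_coe_finset]
      congr 1
      ext H
      simp
    have e2 : ∀ H : G.Subgraph, H.verts.ncard = ∑ v, if v ∈ H.verts then 1 else 0 := by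
      intro H
      rw [← Finset.card_filter, ← Set.ncard_coe_finset]
      congr 1
      ext v
      simp
    simp_rw [e1, e2]
    exact Finset.sum_comm
  have h2 : ∑ H ∈ P, H.edgeSet.ncard = G.edgeFinset.card := by
    have e1 : ∀ H : G.Subgraph, H.edgeSet.ncard = ∑ e ∈ G.edgeFinset, if e ∈ H.edgeSet then 1 else 0 := by
      intro H
      rw [← Finset.card_filter, ← Set.ncard_coe_finset]
      congr 1
      ext e
      simp only [Finset.coe_filter, mem_edgeFinset, Set.mem_ofPred_eq]
      exact ⟨fun h => ⟨H.edgeSet_subset h, h⟩, fun h => h.2⟩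
    simp_rw [e1]
    rw [Finset.sum_comm, Finset.card_eq_sum_ones]
    refine Finset.sum_congr rfl fun e he => ?_
    rw [mem_edgeFinset] at he
    obtain ⟨H, ⟨hH, heH⟩, hu⟩ := hcov e he
    rw [Finset.sum_eq_single H]
    · simp [heH]
    · intro H' hH' hne
      rw [if_neg]
      intro h
      exact hne (hu H' ⟨hH', h⟩)
    · intro h
      exact absurd hH h
  have h3 : ∑ H ∈ P, H.verts.ncard = ∑ H ∈ P, (H.edgeSet.ncard + 1) :=
    Finset.sum_congr rfl fun H hH => card_verts hG (hc H hH)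
  have h4 := hG.card_edgeFinset
  rw [h1, h3, Finset.sum_add_distrib, h2, Finset.sum_const, smul_eq_mul, mul_one, ← h4]
  ring

end Pool.Agent.V11223.UB
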