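import Pool.Agent.V11223.UB.Main
import Pool.Agent.H532R2.IntPoly

/-!
# The algorithm runs in polynomial time
-/

namespace Pool.Agent.NPC.V11223UB

open Pool.Agent.V11223.UB

variable {α : Type} [TEnc α]

theorem headD_poly {β : Type} [TEnc β] {l : α → List β} {d : α → β} (hl : Poly l) (hd : Poly d) :
    Poly (fun a => (l a).headD (d a)) := by
  refine (Poly.listCases (g := d) (h := fun _ b _ => b) hl hd
    (Poly.fst (Poly.snd Poly.id))).congr fun a => ?_
  cases l a <;> rfl

theorem sz_filter_le {β : Type} [TEnc β] (p : β → Bool) (l : List β) : sz (l.filter p) ≤ sz l := by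
  induction l with
  | nil => simp
  | cons a l ih =>
    rw [List.filter_cons]
    split_ifs
    · simp only [sz_list_cons]; omega
    · simp only [sz_list_cons]; omega

theorem cv_single_poly {a : α → Lb} (ha : Poly a) : Poly (fun x => cv [a x]) := by
  have h1 : Poly (fun x => (a x).1) := Poly.fst ha
  have h2 : Poly (fun x => (a x).2) := Poly.snd ha
  have h : Poly (fun x => ((bif (!(a x).1 && !(a x).2) then 1 else 0, bif (!(a x).1 && (a x).2) then 1
      else 0, bif ((a x).1 && !(a x).2) then 1 else 0, bif ((a x).1 && (a x).2) then 1 else 0) : Q4)) :=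
    Poly.pair (Poly.cond (Poly.and (Poly.not h1) (Poly.not h2)) (Poly.const 1) (Poly.const 0))
      (Poly.pair (Poly.cond (Poly.and (Poly.not h1) h2) (Poly.const 1) (Poly.const 0))
        (Poly.pair (Poly.cond (Poly.and h1 (Poly.not h2)) (Poly.const 1) (Poly.const 0))
          (Poly.cond (Poly.and h1 h2) (Poly.const 1) (Poly.const 0))))
  refine h.congr fun x => ?_
  rcases a x with ⟨_ | _, _ | _⟩ <;> rfl

theorem add4_poly {q r : α → Q4} (hq : Poly q) (hr : Poly r) : Poly (fun x => q x + r x) := by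
  have h : Poly (fun x => (((q x).1 + (r x).1, (q x).2.1 + (r x).2.1, (q x).2.2.1 + (r x).2.2.1,
      (q x).2.2.2 + (r x).2.2.2) : Q4)) :=
    Poly.pair (Poly.add (Poly.fst hq) (Poly.fst hr))
      (Poly.pair (Poly.add (Poly.fst (Poly.snd hq)) (Poly.fst (Poly.snd hr)))
        (Poly.pair (Poly.add (Poly.fst (Poly.snd (Poly.snd hq))) (Poly.fst (Poly.snd (Poly.snd hr))))
          (Poly.add (Poly.snd (Poly.snd (Poly.snd hq))) (Poly.snd (Poly.snd (Poly.snd hr))))))
  exact h.congr fun x => rfl

theorem ev_poly {t : α → Q4} {a : α → Lb} (ht : Poly t) (ha : Poly a) :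
    Poly (fun x => evL (t x) (a x)) := by
  unfold evL
  exact Poly.cond (Poly.fst ha)
    (Poly.cond (Poly.snd ha) (Poly.snd (Poly.snd (Poly.snd ht))) (Poly.fst (Poly.snd (Poly.snd ht))))
    (Poly.cond (Poly.snd ha) (Poly.fst (Poly.snd ht)) (Poly.fst ht))

theorem box_poly {n B : α → ℕ} (hn : UPoly n) (hB : UPoly B) :
    Poly (fun x => box (n x) (B x)) := by
  unfold box
  have hn1 : UPoly (fun x => n x + 1) := UPoly.add hn (UPoly.const 1)
  have hB1 : UPoly (fun x => B x + 1) := UPoly.add hB (UPoly.const 1)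
  refine Poly.flatMap (F := fun x a => (List.range (n x + 1)).flatMap fun b =>
    (List.range (n x + 1)).flatMap fun c => (List.range (n x + 1)).flatMap fun d =>
      (List.range (B x + 1)).map fun e => ((a, b, c, d), e)) hn1.range ?_
  refine Poly.flatMap (F := fun (x : α × ℕ) b =>
    (List.range (n x.1 + 1)).flatMap fun c => (List.range (n x.1 + 1)).flatMap fun d =>
      (List.range (B x.1 + 1)).map fun e => ((x.2, b, c, d), e))
    (hn1.comp (Poly.fst Poly.id)).range ?_
  refine Poly.flatMap (F := fun (x : (α × ℕ) × ℕ) c => (List.range (n x.1.1 + 1)).flatMap fun d =>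
      (List.range (B x.1.1 + 1)).map fun e => ((x.1.2, x.2, c, d), e))
    (hn1.comp (Poly.fst (Poly.fst Poly.id))).range ?_
  refine Poly.flatMap (F := fun (x : ((α × ℕ) × ℕ) × ℕ) d =>
      (List.range (B x.1.1.1 + 1)).map fun e => ((x.1.1.2, x.1.2, x.2, d), e))
    (hn1.comp (Poly.fst (Poly.fst (Poly.fst Poly.id)))).range ?_
  refine Poly.map (F := fun (x : (((α × ℕ) × ℕ) × ℕ) × ℕ) e =>
    ((x.1.1.1.2, x.1.1.2, x.1.2, x.2), e))
    (hB1.comp (Poly.fst (Poly.fst (Poly.fst (Poly.fst Poly.id))))).range ?_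
  refine Poly.pair (Poly.pair ?_ (Poly.pair ?_ (Poly.pair ?_ ?_))) (Poly.snd Poly.id)
  · exact Poly.snd (Poly.fst (Poly.fst (Poly.fst (Poly.fst Poly.id))))
  · exact Poly.snd (Poly.fst (Poly.fst (Poly.fst Poly.id)))
  · exact Poly.snd (Poly.fst (Poly.fst Poly.id))
  · exact Poly.snd (Poly.fst Poly.id)

theorem phA_poly {bx S : α → List (Q4 × ℕ)} {t : α → Q4} (hbx : Poly bx) (hS : Poly S)
    (ht : Poly t) : Poly (fun x => phA (bx x) (S x) (t x)) := by
  unfold phA
  refine Poly.filter (p := fun w x => (S w).any fun y => lbs.any fun a =>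
    decide (x = (y.1 + cv [a], y.2 + evL (t w) a))) hbx ?_
  refine Poly.any (p := fun (w : α × (Q4 × ℕ)) y => lbs.any fun a =>
    decide (w.2 = (y.1 + cv [a], y.2 + evL (t w.1) a))) (hS.comp (Poly.fst Poly.id)) ?_
  refine Poly.any (p := fun (w : (α × (Q4 × ℕ)) × (Q4 × ℕ)) a =>
    decide (w.1.2 = (w.2.1 + cv [a], w.2.2 + evL (t w.1.1) a))) (Poly.const lbs) ?_
  refine Poly.decide_eq (Poly.snd (Poly.fst (Poly.fst Poly.id))) (Poly.pair ?_ ?_)
  · exact add4_poly (Poly.fst (Poly.snd (Poly.fst Poly.id))) (cv_single_poly (Poly.snd Poly.id))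
  · exact Poly.add (Poly.snd (Poly.snd (Poly.fst Poly.id)))
      (ev_poly (ht.comp (Poly.fst (Poly.fst (Poly.fst Poly.id)))) (Poly.snd Poly.id))

theorem phB_poly {bx S : α → List (Q4 × ℕ)} (hbx : Poly bx) (hS : Poly S) :
    Poly (fun x => phB (bx x) (S x)) := by
  unfold phB
  refine Poly.filter (p := fun w x => (S w).any fun y =>
    decide (x = y) || (types.map cv).any fun q => decide (y.1 = x.1 + q ∧ x.2 = y.2 + 1)) hbx ?_
  refine Poly.any (p := fun (w : α × (Q4 × ℕ)) y =>
    decide (w.2 = y) || (types.map cv).any fun q => decide (y.1 = w.2.1 + q ∧ w.2.2 = y.2 + 1))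
    (hS.comp (Poly.fst Poly.id)) ?_
  refine Poly.or (Poly.decide_eq (Poly.snd (Poly.fst Poly.id)) (Poly.snd Poly.id)) ?_
  refine Poly.any (p := fun (w : (α × (Q4 × ℕ)) × (Q4 × ℕ)) (q : Q4) =>
    decide (w.2.1 = w.1.2.1 + q ∧ w.1.2.2 = w.2.2 + 1)) (Poly.const (types.map cv)) ?_
  refine Poly.decide_and (Poly.decide_eq (Poly.fst (Poly.snd (Poly.fst Poly.id))) ?_)
    (Poly.decide_eq (Poly.snd (Poly.snd (Poly.fst (Poly.fst Poly.id))))
      (Poly.add (Poly.snd (Poly.snd (Poly.fst Poly.id))) (Poly.const 1)))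
  exact add4_poly (Poly.fst (Poly.snd (Poly.fst (Poly.fst Poly.id)))) (Poly.snd Poly.id)

theorem foldl_filter_sz {β γ : Type} [TEnc β] (F : List β → γ → List β) (bx : List β)
    (hF : ∀ S c, sz (F S c) ≤ sz bx) (l : List γ) (S : List β) :
    sz (l.foldl F S) ≤ sz bx + sz S := by
  induction l using List.reverseRecOn with
  | nil => simp
  | append_singleton l c _ =>
    rw [List.foldl_append, List.foldl_cons, List.foldl_nil]
    exact (hF _ _).trans (Nat.le_add_right _ _)

theorem comb_poly {n B k : α → ℕ} {tl : α → List Q4} {ini : α → List Lb} (hn : UPoly n)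
    (hB : UPoly B) (hk : UPoly k) (htl : Poly tl) (hini : Poly (fun x => cv (ini x))) :
    Poly (fun x => comb (n x) (B x) (k x) (tl x) (ini x)) := by
  have hbx := box_poly hn hB
  have hinit : Poly (fun x => [(cv (ini x), 0)]) :=
    Poly.cons (Poly.pair hini (Poly.const 0)) (Poly.const [])
  obtain ⟨p1, hp1⟩ := hbx.sz_le
  obtain ⟨p2, hp2⟩ := hinit.sz_le
  have h1 : Poly (fun x => (tl x).foldl (phA (box (n x) (B x))) [(cv (ini x), 0)]) := by
    refine Poly.foldl (F := fun x S t => phA (box (n x) (B x)) S t) htl hinit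
      (phA_poly (hbx.comp (Poly.fst Poly.id)) (Poly.fst (Poly.snd Poly.id))
        (Poly.snd (Poly.snd Poly.id))) (p1 + p2) ?_
    intro x j _
    refine (foldl_filter_sz _ (box (n x) (B x)) (fun S c => sz_filter_le _ _) _ _).trans ?_
    rw [Polynomial.eval_add]
    exact Nat.add_le_add (hp1 x) (hp2 x)
  obtain ⟨p3, hp3⟩ := h1.sz_le
  have h2 : Poly (fun x => (List.range (k x)).foldl (fun S _ => phB (box (n x) (B x)) S)
      ((tl x).foldl (phA (box (n x) (B x))) [(cv (ini x), 0)])) := by
    refine Poly.foldl (F := fun x S (_ : ℕ) => phB (box (n x) (B x)) S) hk.range h1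
      (phB_poly (hbx.comp (Poly.fst Poly.id)) (Poly.fst (Poly.snd Poly.id))) (p1 + p3) ?_
    intro x j _
    refine (foldl_filter_sz (fun S (_ : ℕ) => phB (box (n x) (B x)) S) (box (n x) (B x))
      (fun S c => sz_filter_le _ _) _ _).trans ?_
    rw [Polynomial.eval_add]
    exact Nat.add_le_add (hp1 x) (hp3 x)
  have h3 : Poly (fun x => ((List.range (k x)).foldl (fun S _ => phB (box (n x) (B x)) S)
      ((tl x).foldl (phA (box (n x) (B x))) [(cv (ini x), 0)])).filter
        fun y => decide (y.1 = (0, 0, 0, 0))) :=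
    Poly.filter (p := fun _ (y : Q4 × ℕ) => decide (y.1 = (0, 0, 0, 0))) h2
      (Poly.decide_eq (Poly.fst (Poly.snd Poly.id)) (Poly.const _))
  unfold comb
  obtain ⟨p4, hp4⟩ := hB.toPoly.sz_le
  refine Poly.foldl (F := fun _ m (y : Q4 × ℕ) => min m y.2) h3 hB.toPoly
    (Poly.min (Poly.fst (Poly.snd Poly.id)) (Poly.snd (Poly.snd (Poly.snd Poly.id)))) (2 * p4) ?_
  intro x j _
  refine (sz_nat_mono_le (foldl_min (fun y : Q4 × ℕ => y.2) _ (B x)).1).trans ?_
  rw [Polynomial.eval_mul]
  simpa using hp4 x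

theorem newE_poly {n B k : α → ℕ} {tl : α → List Q4} (hn : UPoly n) (hB : UPoly B) (hk : UPoly k)
    (htl : Poly tl) : Poly (fun x => newE (n x) (B x) (k x) (tl x)) := by
  unfold newE
  exact Poly.pair (comb_poly hn hB hk htl (Poly.const _))
    (Poly.pair (comb_poly hn hB hk htl (Poly.const _))
      (Poly.pair (comb_poly hn hB hk htl (Poly.const _)) (comb_poly hn hB hk htl (Poly.const _))))

theorem nb_poly {n v : α → ℕ} {E : α → List (ℕ × ℕ)} (hn : UPoly n) (hE : Poly E) (hv : Poly v) :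
    Poly (fun x => nb (n x) (E x) (v x)) := by
  unfold nb adjb
  refine Poly.filter (p := fun x w => (E x).any fun e =>
    decide (e = (v x, w)) || decide (e = (w, v x))) hn.range ?_
  refine Poly.any (p := fun (x : α × ℕ) e =>
    decide (e = (v x.1, x.2)) || decide (e = (x.2, v x.1))) (hE.comp (Poly.fst Poly.id)) ?_
  have h1 : Poly (fun x : (α × ℕ) × (ℕ × ℕ) => v x.1.1) := hv.comp (Poly.fst (Poly.fst Poly.id))
  have h2 : Poly (fun x : (α × ℕ) × (ℕ × ℕ) => x.1.2) := Poly.snd (Poly.fst Poly.id)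
  exact Poly.or (Poly.decide_eq (Poly.snd Poly.id) (Poly.pair h1 h2))
    (Poly.decide_eq (Poly.snd Poly.id) (Poly.pair h2 h1))

theorem entry_poly {Tab : α → List (List Q4)} {v u : α → ℕ} (hT : Poly Tab) (hv : Poly v)
    (hu : Poly u) : Poly (fun x => entry (Tab x) (v x) (u x)) := by
  unfold entry
  exact Poly.getD (Poly.getD hT hv (Poly.const [])) hu (Poly.const _)

theorem round_poly {n B k : α → ℕ} {E : α → List (ℕ × ℕ)} {Tab : α → List (List Q4)}
    (hn : UPoly n) (hB : UPoly B) (hk : UPoly k) (hE : Poly E) (hT : Poly Tab) :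
    Poly (fun x => rnd (n x) (B x) (k x) (E x) (Tab x)) := by
  unfold rnd
  refine Poly.map (F := fun x v => (List.range (n x)).map fun u =>
    newE (n x) (B x) (k x) (((nb (n x) (E x) v).filter fun w => !decide (w = u)).map
      fun w => entry (Tab x) w v)) hn.range ?_
  refine Poly.map (F := fun (x : α × ℕ) u =>
    newE (n x.1) (B x.1) (k x.1) (((nb (n x.1) (E x.1) x.2).filter fun w => !decide (w = u)).map
      fun w => entry (Tab x.1) w x.2)) (hn.comp (Poly.fst Poly.id)).range ?_
  have hf : Poly (fun x : (α × ℕ) × ℕ => x.1.1) := Poly.fst (Poly.fst Poly.id)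
  refine newE_poly (hn.comp hf) (hB.comp hf) (hk.comp hf) ?_
  refine Poly.map (F := fun (x : (α × ℕ) × ℕ) w => entry (Tab x.1.1) w x.1.2) ?_ ?_
  · refine Poly.filter (p := fun (x : (α × ℕ) × ℕ) w => !decide (w = x.2)) ?_ ?_
    · exact nb_poly (hn.comp hf) (hE.comp hf) (Poly.snd (Poly.fst Poly.id))
    · exact Poly.not (Poly.decide_eq (Poly.snd Poly.id) (Poly.snd (Poly.fst Poly.id)))
  · exact entry_poly (hT.comp (Poly.fst (Poly.fst (Poly.fst Poly.id)))) (Poly.snd Poly.id)
      (Poly.snd (Poly.fst (Poly.fst Poly.id)))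

theorem sz_newE_le (n B k : ℕ) (tl : List Q4) : sz (newE n B k tl) ≤ 8 * sz B + 3 := by
  unfold newE
  simp only [sz_pair]
  have h := fun ini => sz_nat_mono_le (comb_le n B k tl ini)
  have h1 := h [sw (false, false)]
  have h2 := h [sw (false, true)]
  have h3 := h [sw (true, false)]
  have h4 := h [sw (true, true)]
  omega

theorem sz_round_le (n B k : ℕ) (E : List (ℕ × ℕ)) (Tab : List (List Q4)) :
    sz (rnd n B k E Tab) ≤ n * (n * (8 * sz B + 3 + 1) + 1 + 1) + 1 := by
  unfold rnd
  refine (sz_le_length_mul _ (n * (8 * sz B + 3 + 1) + 1) ?_).trans ?_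
  · intro r hr
    obtain ⟨v, _, rfl⟩ := List.mem_map.1 hr
    refine (sz_le_length_mul _ (8 * sz B + 3) ?_).trans ?_
    · intro e he
      obtain ⟨u, _, rfl⟩ := List.mem_map.1 he
      exact sz_newE_le _ _ _ _
    · rw [List.length_map, List.length_range]
  · rw [List.length_map, List.length_range]

theorem tabs_poly {n B k : α → ℕ} {E : α → List (ℕ × ℕ)}
    (hn : UPoly n) (hB : UPoly B) (hk : UPoly k) (hE : Poly E) :
    Poly (fun x => tabs (n x) (B x) (k x) (E x)) := by
  unfold tabs
  obtain ⟨p1, hp1⟩ := hn.range.sz_le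
  obtain ⟨p2, hp2⟩ := hB.toPoly.sz_le
  refine Poly.foldl (F := fun x Tab (_ : ℕ) => rnd (n x) (B x) (k x) (E x) Tab) hn.range
    (Poly.const []) ?_ (p1 * (p1 * (8 * p2 + 3 + 1) + 1 + 1) + 1) ?_
  · have hf : Poly (fun x : α × (List (List Q4) × ℕ) => x.1) := Poly.fst Poly.id
    exact round_poly (hn.comp hf) (hB.comp hf) (hk.comp hf) (hE.comp hf)
      (Poly.fst (Poly.snd Poly.id))
  · intro x j _
    have hnle : n x ≤ p1.eval (sz x) := by
      have h1 := length_lt_sz (List.range (n x))
      rw [List.length_range] at h1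
      exact h1.le.trans (hp1 x)
    generalize (List.range (n x)).take j = l
    induction l using List.reverseRecOn with
    | nil =>
      simp only [List.foldl_nil, sz_list_nil]
      simp
    | append_singleton l c _ =>
      rw [List.foldl_append, List.foldl_cons, List.foldl_nil]
      refine (sz_round_le _ _ _ _ _).trans ?_
      simp only [Polynomial.eval_add, Polynomial.eval_mul, Polynomial.eval_one,
        Polynomial.eval_ofNat]
      have h2 := hp2 x
      gcongr

theorem total_poly {n B k : α → ℕ} {E : α → List (ℕ × ℕ)}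
    (hn : UPoly n) (hB : UPoly B) (hk : UPoly k) (hE : Poly E) :
    Poly (fun x => total (n x) (B x) (k x) (E x)) := by
  unfold total
  refine comb_poly hn hB hk ?_ (Poly.const _)
  refine Poly.map (F := fun x w => entry (tabs (n x) (B x) (k x) (E x)) w 0)
    (nb_poly hn hE (Poly.const 0)) ?_
  exact entry_poly ((tabs_poly hn hB hk hE).comp (Poly.fst Poly.id)) (Poly.snd Poly.id)
    (Poly.const 0)

theorem bestK_le (n : ℕ) (E : List (ℕ × ℕ)) : bestK n E ≤ n := by
  unfold bestK
  have h : ∀ k ∈ ((List.range n).map fun k => k + 1).filter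
      (fun k => decide (total n (2 * n + 1) k E < 2 * n + 1)), k ≤ n := by
    intro k hk
    have := (List.mem_filter.1 hk).1
    obtain ⟨j, hj, rfl⟩ := List.mem_map.1 this
    rw [List.mem_range] at hj
    omega
  cases hl : ((List.range n).map fun k => k + 1).filter
      (fun k => decide (total n (2 * n + 1) k E < 2 * n + 1)) with
  | nil => simp
  | cons a t =>
    rw [List.headD_cons]
    exact h a (by rw [hl]; simp)

theorem bestK_upoly {n : α → ℕ} {E : α → List (ℕ × ℕ)} (hn : UPoly n) (hE : Poly E) :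
    UPoly (fun x => bestK (n x) (E x)) := by
  refine UPoly.of_le ?_ hn fun x => bestK_le _ _
  have hB : UPoly (fun x => 2 * n x + 1) := UPoly.add (UPoly.mul (UPoly.const 2) hn) (UPoly.const 1)
  have h : Poly (fun x => (((List.range (n x)).map fun k => k + 1).filter fun k =>
      decide (total (n x) (2 * n x + 1) (min k (n x)) (E x) < 2 * n x + 1)).headD 0) := by
    refine headD_poly ?_ (Poly.const 0)
    refine Poly.filter (p := fun x k =>
      decide (total (n x) (2 * n x + 1) (min k (n x)) (E x) < 2 * n x + 1))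
      (Poly.map (F := fun _ k => k + 1) hn.range (Poly.succ (Poly.snd Poly.id))) ?_
    have hf : Poly (fun x : α × ℕ => x.1) := Poly.fst Poly.id
    have hk : UPoly (fun x : α × ℕ => min x.2 (n x.1)) :=
      UPoly.of_le (Poly.min (Poly.snd Poly.id) (hn.toPoly.comp hf)) (hn.comp hf)
        fun x => min_le_right _ _
    exact Poly.decide_lt (total_poly (hn.comp hf) (hB.comp hf) hk (hE.comp hf))
      (hB.toPoly.comp hf)
  refine h.congr fun x => ?_
  unfold bestK
  congr 1
  refine List.filter_congr fun k hk => ?_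
  obtain ⟨j, hj, rfl⟩ := List.mem_map.1 hk
  rw [List.mem_range] at hj
  rw [min_eq_left (by omega)]

theorem algo_poly : Poly algo := by
  unfold algo
  have hn : UPoly (fun x : List ℕ × List (ℕ × ℕ) => x.1.length) :=
    UPoly.length (Poly.fst Poly.id)
  have hE : Poly (fun x : List ℕ × List (ℕ × ℕ) => x.2) := Poly.snd Poly.id
  have hB : UPoly (fun x : List ℕ × List (ℕ × ℕ) => 2 * x.1.length + 1) :=
    UPoly.add (UPoly.mul (UPoly.const 2) hn) (UPoly.const 1)
  have hK := bestK_upoly hn hE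
  exact Poly.pair hK.toPoly
    (Poly.sub (Poly.add (total_poly hn hB hK hE) (Poly.const 1)) hn.toPoly)

end Pool.Agent.NPC.V11223UB
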