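import Pool.Agent.V11223.UB.Lower

/-!
# The upper bound: from local groupings to a decomposition
-/

set_option linter.unusedSectionVars false

namespace Pool.Agent.V11223.UB

open SimpleGraph

theorem perm_map_split {α β : Type} (f : α → β) : ∀ (l : List α) (g h : List β),
    (g ++ h).Perm (l.map f) → ∃ l1 l2 : List α, l.Perm (l1 ++ l2) ∧ l1.map f = g ∧
      l2.map f = h := by
  intro l g h hp
  obtain ⟨l', hl', hm⟩ : ∃ l' : List α, l.Perm l' ∧ l'.map f = g ++ h := by
    induction hp' : g ++ h generalizing l g h with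
    | nil =>
      rw [hp'] at hp
      have := hp.length_eq
      simp only [List.length_nil, List.length_map] at this
      have : l = [] := List.length_eq_zero_iff.1 this.symm
      subst this
      exact ⟨[], List.Perm.refl _, rfl⟩
    | cons b t ih =>
      rw [hp'] at hp
      have hb : b ∈ l.map f := hp.mem_iff.1 (by simp)
      obtain ⟨a, ha, rfl⟩ := List.mem_map.1 hb
      obtain ⟨s, u, rfl⟩ := List.append_of_mem ha
      have h1 : t.Perm ((s ++ u).map f) := by
        have h2 : (f a :: t).Perm (f a :: (s ++ u).map f) := by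
          refine hp.trans ?_
          rw [List.map_append, List.map_cons, List.map_append]
          exact List.perm_middle
        exact h2.cons_inv
      obtain ⟨l', hl', hm⟩ := ih (s ++ u) t [] (by simpa using h1) (by simp)
      refine ⟨a :: l', ?_, by rw [List.map_cons, hm]⟩
      exact List.perm_middle.trans (hl'.cons a)
  have h1 := List.map_eq_append_iff.1 hm
  obtain ⟨l1, l2, rfl, h2, h3⟩ := h1
  exact ⟨l1, l2, hl', h2, h3⟩

/-- A grouping of the labels gives a colouring of the elements. -/
theorem exists_colouring {α β : Type} [DecidableEq α] (f : α → β) : ∀ (gs : List (List β))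
    (l : List α), l.Nodup → gs.flatten.Perm (l.map f) →
    ∃ c : α → ℕ, (∀ w ∈ l, c w < gs.length) ∧
      ∀ i (hi : i < gs.length), ((l.filter (fun w => decide (c w = i))).map f).Perm gs[i] := by
  intro gs
  induction gs with
  | nil =>
    intro l _ hp
    have := hp.length_eq
    simp only [List.flatten_nil, List.length_nil, List.length_map] at this
    have : l = [] := List.length_eq_zero_iff.1 this.symm
    subst this
    exact ⟨fun _ => 0, by simp, by simp⟩
  | cons g gs ih =>
    intro l hl hp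
    rw [List.flatten_cons] at hp
    obtain ⟨l1, l2, hperm, h1, h2⟩ := perm_map_split f l g gs.flatten hp
    have hnd : (l1 ++ l2).Nodup := hperm.nodup_iff.1 hl
    have hdis : ∀ x ∈ l1, x ∉ l2 := by
      intro x hx hx2
      exact (List.nodup_append.1 hnd).2.2 x hx x hx2 rfl
    obtain ⟨c, hc1, hc2⟩ := ih l2 (List.nodup_append.1 hnd).2.1 (by rw [h2])
    refine ⟨fun w => if w ∈ l1 then 0 else c w + 1, ?_, ?_⟩
    · intro w hw
      have := hperm.mem_iff.1 hw
      simp only
      split_ifs with h
      · simp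
      · rcases List.mem_append.1 this with h' | h'
        · exact absurd h' h
        · rw [List.length_cons]
          have := hc1 w h'
          omega
    · intro i hi
      have hf : (l.filter (fun w => decide ((if w ∈ l1 then 0 else c w + 1) = i))).Perm
          ((l1 ++ l2).filter (fun w => decide ((if w ∈ l1 then 0 else c w + 1) = i))) :=
        hperm.filter _
      refine (hf.map f).trans ?_
      rw [List.filter_append]
      cases i with
      | zero =>
        have e1 : l1.filter (fun w => decide ((if w ∈ l1 then 0 else c w + 1) = 0)) = l1 := by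
          rw [List.filter_eq_self]
          intro a ha
          simp [ha]
        have e2 : l2.filter (fun w => decide ((if w ∈ l1 then 0 else c w + 1) = 0)) = [] := by
          rw [List.filter_eq_nil_iff]
          intro a ha
          have : a ∉ l1 := fun h => hdis a h ha
          simp [this]
        rw [e1, e2, List.append_nil, h1]
        exact List.Perm.refl _
      | succ i =>
        have e1 : l1.filter (fun w => decide ((if w ∈ l1 then 0 else c w + 1) = i + 1)) = [] := by
          rw [List.filter_eq_nil_iff]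
          intro a ha
          simp [ha]
        have e2 : l2.filter (fun w => decide ((if w ∈ l1 then 0 else c w + 1) = i + 1)) =
            l2.filter (fun w => decide (c w = i)) := by
          refine List.filter_congr fun a ha => ?_
          have : a ∉ l1 := fun h => hdis a h ha
          simp [this]
        rw [e1, e2, List.nil_append]
        have hi' : i < gs.length := by simpa using hi
        exact hc2 i hi'

variable {V : Type} [Fintype V] [DecidableEq V] {G : SimpleGraph V}

/-- a labelling of the edges and a colouring of the neighbours of every vertex -/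
structure Cfg (R : Rt G) (k : ℕ) where
  /-- label of the edge to the parent, seen from the parent -/
  lab : V → Lb
  /-- number of groups -/
  m : V → ℕ
  /-- the group of the edge `v w` at `v` -/
  c : V → V → ℕ
  /-- bound on the number of groups -/
  hm : ∀ v, m v ≤ k
  /-- groups are numbered `0, ..., m v - 1` -/
  hc : ∀ v, ∀ w ∈ R.nbl v, c v w < m v

namespace Cfg

variable {R : Rt G} {k : ℕ} (C : Cfg R k)

/-- the label of the edge `v w` seen from `v` -/
def L (v w : V) : Lb := if v ≠ R.r ∧ w = R.p v then sw (C.lab v) else C.lab w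

/-- the labels of group `i` at `v` -/
def gl (v : V) (i : ℕ) : List Lb :=
  ((R.nbl v).filter (fun w => decide (C.c v w = i))).map (C.L v)

theorem L_sw (hG : G.IsTree) {v w : V} (h : G.Adj v w) : C.L v w = sw (C.L w v) := by
  have hd : ∀ a : Lb, sw (sw a) = a := fun _ => rfl
  rcases (R.adj_iff hG v w).1 h with ⟨h1, h2⟩ | ⟨h1, h2⟩
  · have h3 : C.L v w = sw (C.lab v) := by
      unfold L; rw [if_pos ⟨h1, h2⟩]
    have h4 : C.L w v = C.lab v := by
      unfold L
      rw [if_neg]
      rintro ⟨h5, h6⟩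
      have h7 := (R.hp v h1).2
      have h8 := (R.hp w h5).2
      rw [← h2] at h7
      rw [← h6] at h8
      omega
    rw [h3, h4]
  · have h3 : C.L w v = sw (C.lab w) := by
      unfold L; rw [if_pos ⟨h1, h2⟩]
    have h4 : C.L v w = C.lab w := by
      unfold L
      rw [if_neg]
      rintro ⟨h5, h6⟩
      have h7 := (R.hp v h5).2
      have h8 := (R.hp w h1).2
      rw [← h2] at h8
      rw [← h6] at h7
      omega
    rw [h3, h4, hd]

/-- the identifier of the piece of the edge to the parent, with fuel -/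
def idF : ℕ → V → V × ℕ
  | 0, v => (v, 0)
  | d + 1, v => if R.p v ≠ R.r ∧ C.c (R.p v) (R.p (R.p v)) = C.c (R.p v) v then idF d (R.p v)
      else (R.p v, C.c (R.p v) v)

/-- the identifier of the piece of the edge from `v` to its parent -/
noncomputable def id' (v : V) : V × ℕ := C.idF (G.dist R.r v) v

theorem id'_eq {v : V} (hv : v ≠ R.r) : C.id' v =
    if R.p v ≠ R.r ∧ C.c (R.p v) (R.p (R.p v)) = C.c (R.p v) v then C.id' (R.p v)
      else (R.p v, C.c (R.p v) v) := by
  unfold id'
  rw [(R.hp v hv).2]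
  rfl

theorem id'_dist : ∀ (d : ℕ) {v : V}, G.dist R.r v = d → v ≠ R.r →
    G.dist R.r (C.id' v).1 < G.dist R.r v := by
  intro d
  induction d with
  | zero =>
    intro v hd hv
    have := (R.hp v hv).2
    omega
  | succ d ih =>
    intro v hd hv
    rw [C.id'_eq hv]
    have h1 := (R.hp v hv).2
    split_ifs with h
    · have := ih (v := R.p v) (by omega) h.1
      omega
    · simp only
      omega

/-- the identifier of the piece containing the `i`-th group at `v` -/
noncomputable def gid (v : V) (i : ℕ) : V × ℕ :=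
  if v ≠ R.r ∧ C.c v (R.p v) = i then C.id' v else (v, i)

theorem gid_inj {v : V} {i j : ℕ} (h : C.gid v i = C.gid v j) : i = j := by
  unfold gid at h
  split_ifs at h with h1 h2 h2
  · rw [← h1.2, ← h2.2]
  · have := C.id'_dist _ rfl h1.1
    rw [h] at this
    exact absurd this (lt_irrefl _)
  · have := C.id'_dist _ rfl h2.1
    rw [← h] at this
    exact absurd this (lt_irrefl _)
  · exact (Prod.ext_iff.1 h).2

/-- the identifier of the piece containing the edge `v w` -/
noncomputable def eid (v w : V) : V × ℕ := if v ≠ R.r ∧ w = R.p v then C.id' v else C.id' w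

theorem eid_eq (hG : G.IsTree) {v w : V} (h : G.Adj v w) : C.eid v w = C.gid v (C.c v w) := by
  unfold eid gid
  rcases (R.adj_iff hG v w).1 h with ⟨h1, h2⟩ | ⟨h1, h2⟩
  · rw [if_pos ⟨h1, h2⟩, if_pos ⟨h1, by rw [← h2]⟩]
  · have hn : ¬ (v ≠ R.r ∧ w = R.p v) := by
      rintro ⟨h5, h6⟩
      have h7 := (R.hp v h5).2
      have h8 := (R.hp w h1).2
      rw [← h2] at h8
      rw [← h6] at h7
      omega
    rw [if_neg hn, C.id'_eq h1, ← h2]

theorem eid_comm (hG : G.IsTree) {v w : V} (h : G.Adj v w) : C.eid v w = C.eid w v := by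
  unfold eid
  rcases (R.adj_iff hG v w).1 h with ⟨h1, h2⟩ | ⟨h1, h2⟩
  · have hn : ¬ (w ≠ R.r ∧ v = R.p w) := by
      rintro ⟨h5, h6⟩
      have h7 := (R.hp v h1).2
      have h8 := (R.hp w h5).2
      rw [← h2] at h7
      rw [← h6] at h8
      omega
    rw [if_pos ⟨h1, h2⟩, if_neg hn]
  · have hn : ¬ (v ≠ R.r ∧ w = R.p v) := by
      rintro ⟨h5, h6⟩
      have h7 := (R.hp v h5).2
      have h8 := (R.hp w h1).2
      rw [← h2] at h8
      rw [← h6] at h7
      omega
    rw [if_neg hn, if_pos ⟨h1, h2⟩]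

/-- the piece with identifier `t` -/
def pc (hG : G.IsTree) (t : V × ℕ) : G.Subgraph where
  verts := {v | ∃ w, G.Adj v w ∧ C.eid v w = t}
  Adj v w := G.Adj v w ∧ C.eid v w = t
  adj_sub h := h.1
  edge_vert h := ⟨_, h⟩
  symm := ⟨fun v w h => ⟨h.1.symm, by rw [C.eid_comm hG h.1.symm]; exact h.2⟩⟩

open Classical in
/-- all pieces -/
noncomputable def pieces (hG : G.IsTree) : Finset G.Subgraph :=
  ((Finset.univ.erase R.r).image C.id').image (C.pc hG)

theorem mem_pieces (hG : G.IsTree) {H : G.Subgraph} :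
    H ∈ C.pieces hG ↔ ∃ v w, G.Adj v w ∧ H = C.pc hG (C.eid v w) := by
  classical
  unfold pieces
  rw [Finset.mem_image]
  constructor
  · rintro ⟨t, ht, rfl⟩
    rw [Finset.mem_image] at ht
    obtain ⟨v, hv, rfl⟩ := ht
    have hv' : v ≠ R.r := Finset.ne_of_mem_erase hv
    refine ⟨v, R.p v, (R.hp v hv').1, ?_⟩
    unfold eid
    rw [if_pos ⟨hv', rfl⟩]
  · rintro ⟨v, w, h, rfl⟩
    refine ⟨C.eid v w, ?_, rfl⟩
    rw [Finset.mem_image]
    unfold eid
    rcases (R.adj_iff hG v w).1 h with ⟨h1, h2⟩ | ⟨h1, h2⟩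
    · rw [if_pos ⟨h1, h2⟩]
      exact ⟨v, Finset.mem_erase.2 ⟨h1, Finset.mem_univ _⟩, rfl⟩
    · have hn : ¬ (v ≠ R.r ∧ w = R.p v) := by
        rintro ⟨h5, h6⟩
        have h7 := (R.hp v h5).2
        have h8 := (R.hp w h1).2
        rw [← h2] at h8
        rw [← h6] at h7
        omega
      rw [if_neg hn]
      exact ⟨w, Finset.mem_erase.2 ⟨h1, Finset.mem_univ _⟩, rfl⟩

theorem reach_top (hG : G.IsTree) (t : V × ℕ) : ∀ (d : ℕ) (x : V), G.dist R.r x = d →
    ∀ hx : x ∈ (C.pc hG t).verts, ∃ ht : t.1 ∈ (C.pc hG t).verts,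
      (C.pc hG t).coe.Reachable ⟨x, hx⟩ ⟨t.1, ht⟩ := by
  intro d
  induction d with
  | zero =>
    intro x hd hx
    have hxr : x = R.r := ((hG.connected.dist_eq_zero_iff).1 hd).symm
    obtain ⟨w, hw, he⟩ := id hx
    rw [C.eid_eq hG hw] at he
    unfold gid at he
    rw [if_neg (fun h => h.1 hxr)] at he
    have h1 : t.1 = x := by rw [← he]
    subst h1
    exact ⟨hx, Reachable.refl _⟩
  | succ d ih =>
    intro x hd hx
    have hxr : x ≠ R.r := by rintro rfl; simp at hd
    by_cases hid : C.id' x = t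
    · have hadj := (R.hp x hxr).1
      have hadj' : (C.pc hG t).Adj x (R.p x) := by
        refine ⟨hadj, ?_⟩
        unfold eid
        rw [if_pos ⟨hxr, rfl⟩, hid]
      have hpx : R.p x ∈ (C.pc hG t).verts := (C.pc hG t).edge_vert hadj'.symm
      have hdp : G.dist R.r (R.p x) = d := by
        have := (R.hp x hxr).2
        omega
      obtain ⟨ht, hr⟩ := ih (R.p x) hdp hpx
      refine ⟨ht, Reachable.trans ?_ hr⟩
      apply Adj.reachable
      rw [Subgraph.coe_adj]
      exact hadj'
    · obtain ⟨w, hw, he⟩ := id hx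
      rw [C.eid_eq hG hw] at he
      unfold gid at he
      split_ifs at he with h
      · exact absurd he hid
      · have h1 : t.1 = x := by rw [← he]
        subst h1
        exact ⟨hx, Reachable.refl _⟩

theorem pc_connected (hG : G.IsTree) {t : V × ℕ} {v w : V} (h : G.Adj v w)
    (ht : C.eid v w = t) : (C.pc hG t).coe.Connected := by
  have hv : v ∈ (C.pc hG t).verts := ⟨w, h, ht⟩
  have : Nonempty (C.pc hG t).verts := ⟨⟨v, hv⟩⟩
  refine Connected.mk ?_
  rintro ⟨x, hx⟩ ⟨y, hy⟩
  obtain ⟨_, h1⟩ := C.reach_top hG t _ x rfl hx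
  obtain ⟨_, h2⟩ := C.reach_top hG t _ y rfl hy
  exact h1.trans h2.symm

theorem nbl_pc (hG : G.IsTree) {t : V × ℕ} {v w₀ : V} (h : G.Adj v w₀)
    (ht : C.eid v w₀ = t) (w : V) :
    (C.pc hG t).Adj v w ↔ w ∈ (R.nbl v).filter (fun w => decide (C.c v w = C.c v w₀)) := by
  rw [List.mem_filter, R.mem_nbl hG]
  simp only [decide_eq_true_eq]
  constructor
  · rintro ⟨h1, h2⟩
    refine ⟨h1, ?_⟩
    rw [C.eid_eq hG h1] at h2
    rw [C.eid_eq hG h] at ht
    exact C.gid_inj (h2.trans ht.symm)
  · rintro ⟨h1, h2⟩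
    refine ⟨h1, ?_⟩
    rw [C.eid_eq hG h1, h2, ← C.eid_eq hG h]
    exact ht

theorem ncard_pc (hG : G.IsTree) {t : V × ℕ} {v w₀ : V} (h : G.Adj v w₀)
    (ht : C.eid v w₀ = t) :
    ((C.pc hG t).neighborSet v).ncard = (C.gl v (C.c v w₀)).length := by
  unfold gl
  rw [List.length_map, ← List.toFinset_card_of_nodup ((R.nodup_nbl v).filter _),
    ← Set.ncard_coe_finset]
  congr 1
  ext w
  rw [List.coe_toFinset, Subgraph.mem_neighborSet, C.nbl_pc hG h ht w]
  rfl

/-- Labels overestimate. -/
theorem lab_of_closer (hG : G.IsTree) (hok : ∀ v i, i < C.m v → Ok (C.gl v i)) {t : V × ℕ}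
    {z : V} (hz : z ∈ S3 (C.pc hG t)) : ∀ (d : ℕ) {v w : V}, G.dist z w = d →
    (C.pc hG t).Adj v w → G.dist z w < G.dist z v → (C.L v w).1 = true := by
  intro d
  induction d with
  | zero =>
    intro v w hd hadj _
    have hzw : z = w := (hG.connected.dist_eq_zero_iff).1 hd
    subst hzw
    have hadj' : G.Adj z v := hadj.1.symm
    have he : C.eid z v = t := by rw [C.eid_comm hG hadj']; exact hadj.2
    have hlen : (C.gl z (C.c z v)).length = 3 := by
      rw [← C.ncard_pc hG hadj' he]
      exact hz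
    have hlt : C.c z v < C.m z := C.hc z v ((R.mem_nbl hG z v).2 hadj')
    obtain ⟨-, -, -, h4⟩ := hok z _ hlt
    have h5 := (h4 hlen).1 (C.L z v) (by
      unfold gl
      apply List.mem_map_of_mem
      rw [List.mem_filter]
      exact ⟨(R.mem_nbl hG z v).2 hadj', by simp⟩)
    rw [C.L_sw hG hadj.1]
    exact h5
  | succ d ih =>
    intro v w hd hadj hlt
    have hzw : w ≠ z := by rintro rfl; simp at hd
    have hadj' : G.Adj w v := hadj.1.symm
    have he : C.eid w v = t := by rw [C.eid_comm hG hadj']; exact hadj.2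
    have hc := C.pc_connected hG hadj' he
    have hw : w ∈ (C.pc hG t).verts := ⟨v, hadj', he⟩
    obtain ⟨w', hw', hd'⟩ := exists_closer (coe_isTree hG hc)
      (u := ⟨z, S3_verts hz⟩) (x := ⟨w, hw⟩) (by
        intro h
        exact hzw (Subtype.ext_iff.1 h))
    rw [dist_coe hG hc, dist_coe hG hc] at hd'
    simp only at hd'
    have hww : (C.pc hG t).Adj w w' := by simpa using hw'
    have hlt' : G.dist z w' < G.dist z w := by omega
    have h1 := ih (v := w) (w := w') (by omega) hww hlt'
    have hne : (w' : V) ≠ v := by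
      intro h
      rw [h] at hlt'
      omega
    have hlt2 : C.c w v < C.m w := C.hc w v ((R.mem_nbl hG w v).2 hadj')
    obtain ⟨-, -, h3, -⟩ := hok w _ hlt2
    unfold gl at h3
    rw [List.pairwise_map] at h3
    have hsym : Std.Symm (fun a b => Compat (C.L w a) (C.L w b)) :=
      ⟨fun a b hab => ⟨hab.2, hab.1⟩⟩
    have h4 := h3.forall
      ((C.nbl_pc hG hadj' he w').1 hww) ((C.nbl_pc hG hadj' he v).1 ⟨hadj', he⟩) hne
    have h5 : (C.L w v).2 = true := h4.1 h1
    rw [C.L_sw hG hadj.1]
    exact h5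

theorem isDecomp (hG : G.IsTree) (hok : ∀ v i, i < C.m v → Ok (C.gl v i)) :
    IsDecomp G k (C.pieces hG) := by
  classical
  refine ⟨?_, ?_, ?_⟩
  · intro H hH
    obtain ⟨x, y, hxy, rfl⟩ := (C.mem_pieces hG).1 hH
    set t := C.eid x y with ht
    refine ⟨?_, ⟨s(x, y), ?_⟩⟩
    · refine ubvt_of_light hG (C.pc_connected hG hxy rfl) ?_ ?_
      · rintro v ⟨w, hw, he⟩
        rw [C.ncard_pc hG hw he]
        exact (hok v _ (C.hc v w ((R.mem_nbl hG v w).2 hw))).2.1
      · intro v hv
        obtain ⟨w, hw, he⟩ : ∃ w, G.Adj v w ∧ C.eid v w = t := S3_verts hv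
        have hlen : (C.gl v (C.c v w)).length = 3 := by
          rw [← C.ncard_pc hG hw he]
          exact hv
        obtain ⟨a, ha, ha2⟩ := ((hok v _ (C.hc v w ((R.mem_nbl hG v w).2 hw))).2.2.2 hlen).2
        unfold gl at ha
        obtain ⟨w', hw', rfl⟩ := List.mem_map.1 ha
        have hadj : (C.pc hG t).Adj v w' := (C.nbl_pc hG hw he w').2 hw'
        refine ⟨w', hadj, fun z hz => ?_⟩
        rcases step_cases hG z hadj.1 with h | h
        · exfalso
          have := C.lab_of_closer hG hok hz _ rfl hadj (by omega)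
          rw [this] at ha2
          exact absurd ha2 (by simp)
        · exact h
    · show (C.pc hG t).Adj x y
      exact ⟨hxy, ht.symm⟩
  · intro e he
    induction e using Sym2.ind with
    | _ x y =>
    have hxy : G.Adj x y := he
    refine ⟨C.pc hG (C.eid x y), ⟨(C.mem_pieces hG).2 ⟨x, y, hxy, rfl⟩, ⟨hxy, rfl⟩⟩, ?_⟩
    rintro H ⟨hH, heH⟩
    obtain ⟨x', y', hxy', rfl⟩ := (C.mem_pieces hG).1 hH
    have h1 : (C.pc hG (C.eid x' y')).Adj x y := heH
    rw [h1.2]
  · intro v
    refine le_trans ?_ (C.hm v)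
    have hsub : {H | H ∈ C.pieces hG ∧ v ∈ H.verts} ⊆
        ((Finset.range (C.m v)).image (fun i => C.pc hG (C.gid v i)) : Finset G.Subgraph) := by
      rintro H ⟨hH, hv⟩
      obtain ⟨x, y, hxy, rfl⟩ := (C.mem_pieces hG).1 hH
      obtain ⟨w, hw, he⟩ := hv
      rw [Finset.coe_image]
      refine ⟨C.c v w, ?_, ?_⟩
      · simpa using C.hc v w ((R.mem_nbl hG v w).2 hw)
      · simp only
        rw [← C.eid_eq hG hw, he]
    refine (Set.ncard_le_ncard hsub (Set.toFinite _)).trans ?_
    rw [Set.ncard_coe_finset]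
    exact Finset.card_image_le.trans (by rw [Finset.card_range])

theorem load_le (hG : G.IsTree) (v : V) :
    {H | H ∈ C.pieces hG ∧ v ∈ H.verts}.ncard ≤ C.m v := by
  classical
  have hsub : {H | H ∈ C.pieces hG ∧ v ∈ H.verts} ⊆
      ((Finset.range (C.m v)).image (fun i => C.pc hG (C.gid v i)) : Finset G.Subgraph) := by
    rintro H ⟨hH, hv⟩
    obtain ⟨x, y, hxy, rfl⟩ := (C.mem_pieces hG).1 hH
    obtain ⟨w, hw, he⟩ := hv
    rw [Finset.coe_image]
    refine ⟨C.c v w, ?_, ?_⟩
    · simpa using C.hc v w ((R.mem_nbl hG v w).2 hw)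
    · simp only
      rw [← C.eid_eq hG hw, he]
  refine (Set.ncard_le_ncard hsub (Set.toFinite _)).trans ?_
  rw [Set.ncard_coe_finset]
  exact Finset.card_image_le.trans (by rw [Finset.card_range])

theorem card_pieces (hG : G.IsTree) (hok : ∀ v i, i < C.m v → Ok (C.gl v i)) :
    (C.pieces hG).card + Fintype.card V ≤ ∑ v, C.m v + 1 := by
  have hD := C.isDecomp hG hok
  have h1 := sum_load hG (C.pieces hG) (fun H hH => (hD.piece H hH).1.1.connected) hD.cover
  have h2 : ∑ v, {H | H ∈ C.pieces hG ∧ v ∈ H.verts}.ncard ≤ ∑ v, C.m v :=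
    Finset.sum_le_sum fun v _ => C.load_le hG v
  omega

end Cfg

/-- **Upper bound.** -/
theorem upper (hG : G.IsTree) (R : Rt G) {k B : ℕ} (T : V → Lb → ℕ)
    (hT : ∀ v a, T v a < B → LC k (R.ch v) T (ini R v a) (T v a)) {a₀ : Lb}
    (h0 : T R.r a₀ < B) :
    ∃ P, IsDecomp G k P ∧ P.card + Fintype.card V ≤ T R.r a₀ + 1 := by
  classical
  -- choices for every state
  have hch : ∀ v a, ∃ (mu : V → Lb) (gs : List (List Lb)), T v a < B →
      (∀ g ∈ gs, Ok g) ∧ gs.length ≤ k ∧ gs.flatten.Perm (ini R v a ++ (R.ch v).map mu) ∧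
      T v a = gs.length + ((R.ch v).map (fun w => T w (mu w))).sum := by
    intro v a
    by_cases h : T v a < B
    · obtain ⟨mu, gs, h1, h2, h3, h4⟩ := hT v a h
      exact ⟨mu, gs, fun _ => ⟨h1, h2, h3, h4⟩⟩
    · exact ⟨fun _ => a, [], fun h' => absurd h' h⟩
  choose mu gs hmg using hch
  -- the labelling, top down
  let labF : ℕ → V → Lb := fun d => Nat.rec (fun _ => a₀) (fun _ f v => mu (R.p v) (f (R.p v)) v) d
  let lab : V → Lb := fun v => labF (G.dist R.r v) v
  have hlab0 : lab R.r = a₀ := by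
    show labF (G.dist R.r R.r) R.r = a₀
    rw [G.dist_self]
    rfl
  have hlab : ∀ v, v ≠ R.r → lab v = mu (R.p v) (lab (R.p v)) v := by
    intro v hv
    show labF (G.dist R.r v) v = _
    rw [(R.hp v hv).2]
  have hfin : ∀ (d : ℕ) (v : V), G.dist R.r v = d → T v (lab v) < B := by
    intro d
    induction d with
    | zero =>
      intro v hd
      have : R.r = v := (hG.connected.dist_eq_zero_iff).1 hd
      rw [← this, hlab0]
      exact h0
    | succ d ih =>
      intro v hd
      have hv : v ≠ R.r := by rintro rfl; simp at hd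
      have h1 := ih (R.p v) (by have := (R.hp v hv).2; omega)
      obtain ⟨-, -, -, h2⟩ := hmg (R.p v) (lab (R.p v)) h1
      have h3 : T v (mu (R.p v) (lab (R.p v)) v) ≤
          ((R.ch (R.p v)).map (fun w => T w (mu (R.p v) (lab (R.p v)) w))).sum := by
        apply List.single_le_sum (fun _ _ => Nat.zero_le _)
        exact List.mem_map.2 ⟨v, (R.mem _ _).2 ⟨hv, rfl⟩, rfl⟩
      rw [hlab v hv]
      omega
  have hfin' : ∀ v, T v (lab v) < B := fun v => hfin _ v rfl
  have hall : ∀ v, (∀ g ∈ gs v (lab v), Ok g) ∧ (gs v (lab v)).length ≤ k ∧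
      (gs v (lab v)).flatten.Perm (ini R v (lab v) ++ (R.ch v).map lab) ∧
      T v (lab v) = (gs v (lab v)).length + ((R.ch v).map (fun w => T w (lab w))).sum := by
    intro v
    obtain ⟨h1, h2, h3, h4⟩ := hmg v (lab v) (hfin' v)
    have e1 : (R.ch v).map lab = (R.ch v).map (mu v (lab v)) := by
      refine List.map_congr_left fun w hw => ?_
      obtain ⟨h5, h6⟩ := (R.mem v w).1 hw
      rw [hlab w h5, h6]
    have e2 : (R.ch v).map (fun w => T w (lab w)) =
        (R.ch v).map (fun w => T w (mu v (lab v) w)) := by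
      refine List.map_congr_left fun w hw => ?_
      obtain ⟨h5, h6⟩ := (R.mem v w).1 hw
      rw [hlab w h5, h6]
    rw [e1, e2]
    exact ⟨h1, h2, h3, h4⟩
  -- the label of an edge seen from an end
  let L : V → V → Lb := fun v w => if v ≠ R.r ∧ w = R.p v then sw (lab v) else lab w
  have hnbl : ∀ v, (R.nbl v).map (L v) = ini R v (lab v) ++ (R.ch v).map lab := by
    intro v
    unfold Rt.nbl ini
    rw [List.map_append]
    congr 1
    · by_cases h : v = R.r
      · rw [if_pos h, if_pos h]; rfl
      · rw [if_neg h, if_neg h, List.map_singleton]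
        congr 1
        show (if v ≠ R.r ∧ R.p v = R.p v then sw (lab v) else lab (R.p v)) = _
        rw [if_pos ⟨h, rfl⟩]
    · refine List.map_congr_left fun w hw => ?_
      show (if v ≠ R.r ∧ w = R.p v then sw (lab v) else lab w) = lab w
      rw [if_neg]
      rintro ⟨h1, h2⟩
      obtain ⟨h5, h6⟩ := (R.mem v w).1 hw
      have h7 := (R.hp v h1).2
      have h8 := (R.hp w h5).2
      rw [h6] at h8
      rw [← h2] at h7
      omega
  have hcol : ∀ v, ∃ c : V → ℕ, (∀ w ∈ R.nbl v, c w < (gs v (lab v)).length) ∧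
      ∀ i (hi : i < (gs v (lab v)).length),
        (((R.nbl v).filter (fun w => decide (c w = i))).map (L v)).Perm (gs v (lab v))[i] := by
    intro v
    exact exists_colouring (L v) (gs v (lab v)) (R.nbl v) (R.nodup_nbl v)
      (by rw [hnbl]; exact (hall v).2.2.1)
  choose c hc1 hc2 using hcol
  let C : Cfg R k :=
    { lab := lab, m := fun v => (gs v (lab v)).length, c := c, hm := fun v => (hall v).2.1,
      hc := hc1 }
  have hok : ∀ v i, i < C.m v → Ok (C.gl v i) := by
    intro v i hi
    exact ((hall v).1 _ (List.getElem_mem hi)).perm (hc2 v i hi).symm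
  refine ⟨C.pieces hG, C.isDecomp hG hok, (C.card_pieces hG hok).trans ?_⟩
  have h1 : ∑ v, T v (lab v) = ∑ v, (gs v (lab v)).length +
      ∑ v, ((R.ch v).map (fun w => T w (lab w))).sum := by
    rw [← Finset.sum_add_distrib]
    exact Finset.sum_congr rfl fun v _ => (hall v).2.2.2
  have h2 := R.sum_ch (fun w => T w (lab w))
  rw [hlab0] at h2
  have h3 : ∑ v, C.m v = ∑ v, (gs v (lab v)).length := rfl
  omega

end Pool.Agent.V11223.UB
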